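import Mathlib
import Pool.Agent.MP_a2d820_lc.h31u.Final

-- ======== part 0: formerly Pool.Agent.MP_a2d820_lc.h70.Mix
section MrgPart0

/-!
Circuits whose lowest layers read only the outer variables, random substitutions for the inner
variables, and probabilistic circuits.
-/

set_option autoImplicit false

namespace Pool.Agent.MP_a2d820_lc.h70

open Finset Pool.Agent.MP_a2d820_lc.h69 Pool.Agent.MP_a2d820_lc.h31u

/-- Boolean functions of assignments. -/
abbrev Fn (X : Type) := (X → Bool) → Bool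

section
variable {X X' U V V' : Type}

/-- On `P`, each value of `q` is witnessed by a tree from a family. -/
def Cov (Q : Set (Fn X)) (m : ℕ) (P : Set (X → Bool)) (q : Fn X) : Prop :=
  ∀ β, ∃ H : Set (Fn X), (∀ h ∈ H, DTq Q m h) ∧ ∀ p ∈ P, (q p = β ↔ ∃ h ∈ H, h p = true)

theorem cov_of_eq {Q : Set (Fn X)} {m : ℕ} {P : Set (X → Bool)} {q q' : Fn X} (h : q' ∈ Q)
    (hm : 1 ≤ m) (e : ∀ p ∈ P, q' p = q p) : Cov Q m P q := by
  intro β
  cases β
  · exact ⟨{fun p => !q' p}, by simpa using (dtq_not h).mono hm, fun p hp => by simp [e p hp]⟩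
  · exact ⟨{q'}, by simpa using (dtq_one h).mono hm, fun p hp => by simp [e p hp]⟩

theorem cov_dt {Q₀ : Set (Fn X)} {Q : Set (Fn X')} {m w : ℕ} {P : Set (X' → Bool)}
    {r : (X' → Bool) → X → Bool} (hQ : ∀ q ∈ Q₀, Cov Q m P (q ∘ r)) {d : Fn X}
    (hd : DTq Q₀ w d) : Cov Q (w * m) P (d ∘ r) := by
  induction hd with
  | const w b =>
    intro β
    refine ⟨{fun _ => b == β}, by simpa using DTq.const _ _, fun p _ => by simp⟩
  | node hg _ _ ih₀ ih₁ =>
    rename_i w g f₀ f₁ _ _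
    intro β
    obtain ⟨H₀, a₀, b₀⟩ := ih₀ β
    obtain ⟨H₁, a₁, b₁⟩ := ih₁ β
    obtain ⟨G₀, c₀, d₀⟩ := hQ g hg false
    obtain ⟨G₁, c₁, d₁⟩ := hQ g hg true
    refine ⟨{u | ∃ h h', ((h ∈ G₀ ∧ h' ∈ H₀) ∨ (h ∈ G₁ ∧ h' ∈ H₁)) ∧ u = fun p => h p && h' p},
      ?_, fun p hp => ?_⟩
    · rintro _ ⟨h, h', (⟨e, e'⟩ | ⟨e, e'⟩), rfl⟩
      · exact (dtq_and (c₀ h e) (a₀ h' e')).mono (by rw [Nat.succ_mul])
      · exact (dtq_and (c₁ h e) (a₁ h' e')).mono (by rw [Nat.succ_mul])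
    · have e₀ := b₀ p hp
      have e₁ := b₁ p hp
      have e₂ := d₀ p hp
      have e₃ := d₁ p hp
      simp only [Function.comp] at e₀ e₁ e₂ e₃ ⊢
      constructor
      · intro h
        cases hg : g (r p)
        · rw [hg] at h
          obtain ⟨u, u1, u2⟩ := e₂.1 hg
          obtain ⟨v, v1, v2⟩ := e₀.1 h
          exact ⟨_, ⟨u, v, Or.inl ⟨u1, v1⟩, rfl⟩, by simp [u2, v2]⟩
        · rw [hg] at h
          obtain ⟨u, u1, u2⟩ := e₃.1 hg
          obtain ⟨v, v1, v2⟩ := e₁.1 h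
          exact ⟨_, ⟨u, v, Or.inr ⟨u1, v1⟩, rfl⟩, by simp [u2, v2]⟩
      · rintro ⟨_, ⟨h, h', (⟨e, e'⟩ | ⟨e, e'⟩), rfl⟩, hh⟩
        · simp only [Bool.and_eq_true] at hh
          rw [e₂.2 ⟨h, e, hh.1⟩]
          exact e₀.2 ⟨h', e', hh.2⟩
        · simp only [Bool.and_eq_true] at hh
          rw [e₃.2 ⟨h, e, hh.1⟩]
          exact e₁.2 ⟨h', e', hh.2⟩

theorem or_cov {Q₀ : Set (Fn X)} {Q : Set (Fn X')} {m w : ℕ} {P : Set (X' → Bool)}
    {r : (X' → Bool) → X → Bool} (hQ : ∀ q ∈ Q₀, Cov Q m P (q ∘ r)) {f : Fn X}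
    (hf : IsOr Q₀ w f) : ∃ f', IsOr Q (w * m) f' ∧ ∀ p ∈ P, f' p = f (r p) := by
  classical
  obtain ⟨G, h1, h2⟩ := hf
  choose! H a b using fun d (hd : d ∈ G) => cov_dt hQ (h1 d hd) true
  refine ⟨fun p => decide (∃ h ∈ {h | ∃ d ∈ G, h ∈ H d}, h p = true),
    ⟨{h | ∃ d ∈ G, h ∈ H d}, fun h ⟨d, hd, e⟩ => a d hd h e, fun p => decide_eq_true_iff⟩,
      fun p hp => ?_⟩
  rw [Bool.eq_iff_iff, decide_eq_true_iff, h2]
  exact ⟨fun ⟨h, ⟨d, hd, e⟩, e'⟩ => ⟨d, hd, (b d hd p hp).2 ⟨h, e, e'⟩⟩, fun ⟨d, hd, e⟩ =>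
    let ⟨h, e1, e2⟩ := (b d hd p hp).1 e; ⟨h, ⟨d, hd, e1⟩, e2⟩⟩

/-- A function of the outer variables only. -/
def out (V : Type) (f : Fn U) : Fn (U ⊕ V) := fun p => f (p ∘ Sum.inl)

/-- Circuits with `h + t` layers, the lowest `h` of which read only outer variables. -/
def MC (w N h : ℕ) : ℕ → Set (Fn (U ⊕ V)) → Prop
  | 0, F => ∃ F₀ : Set (Fn U), AC w N h F₀ ∧ F ⊆ out V '' F₀
  | t + 1, F => ∃ G : Finset (Fn (U ⊕ V)), G.card ≤ N ∧ MC w N h t (G : Set _) ∧
      ∀ f ∈ F, IsOr ((G : Set _) ∪ {g | DT 1 g}) w f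

theorem MC.mono {w N h t : ℕ} {F G : Set (Fn (U ⊕ V))} (a : MC w N h t F) (hG : G ⊆ F) :
    MC w N h t G := by
  cases t with
  | zero => exact let ⟨F₀, h1, h2⟩ := a; ⟨F₀, h1, hG.trans h2⟩
  | succ t => exact let ⟨H, h1, h2, h3⟩ := a; ⟨H, h1, h2, fun f hf => h3 f (hG hf)⟩

theorem MC.up {w w' N N' h t : ℕ} {F : Set (Fn (U ⊕ V))} (a : MC w N h t F) (hw : w ≤ w')
    (hN : N ≤ N') : MC w' N' h t F := by
  induction t generalizing F with
  | zero => exact let ⟨F₀, h1, h2⟩ := a; ⟨F₀, ac_up h1 hw hN, h2⟩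
  | succ t ih =>
    obtain ⟨G, h1, h2, h3⟩ := a
    exact ⟨G, h1.trans hN, ih h2, fun f hf => isOr_mono (h3 f hf) subset_rfl hw⟩

theorem mc_of_ac {w N k : ℕ} (hw : 1 ≤ w) {F : Set (Fn (U ⊕ V))} (a : AC w N (k + 1) F) :
    MC (w * w) N 0 (k + 1) F := by
  induction k generalizing F with
  | zero =>
    obtain ⟨G, -, h2, h3⟩ := a
    refine ⟨∅, by simp, ⟨∅, fun _ h => h.elim, by simp⟩, fun f hf => ?_⟩
    obtain ⟨H, a1, a2⟩ := h3 f hf
    refine ⟨H, fun g hg => ?_, a2⟩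
    refine dtq_sub (show DT _ g from (a1 g hg).comp (s := w) ?_)
      fun q ⟨v, hv⟩ => Or.inr (hv ▸ dt_var v)
    rintro q (hq | hq)
    · exact h2 q hq
    · exact DTq.mono hq hw
  | succ k ih =>
    obtain ⟨G, h1, h2, h3⟩ := a
    exact ⟨G, h1, ih h2, fun f hf => isOr_mono (h3 f hf) subset_rfl (Nat.le_mul_of_pos_left _ hw)⟩

/-- The value at `z` is fixed by at most `m` variables. -/
def Cert (m : ℕ) (φ : Fn V) (z : V → Bool) : Prop :=
  ∃ D : Finset V, D.card ≤ m ∧ ∀ z', (∀ v ∈ D, z' v = z v) → φ z' = φ z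

/-- A substitution for the inner variables. -/
def lft (σ : (V' → Bool) → V → Bool) (p : U ⊕ V' → Bool) : U ⊕ V → Bool :=
  Sum.elim (p ∘ Sum.inl) (σ (p ∘ Sum.inr))

/-- Disjunctions of ordinary trees. -/
abbrev Dnf (w : ℕ) (φ : Fn V) : Prop := IsOr (Set.range fun (v : V) (z : V → Bool) => z v) w φ

theorem dt1_comp {f : Fn X} (h : DT 1 f) {ρ : (X' → Bool) → X → Bool}
    (hρ : ∀ v, DT 1 fun z => ρ z v) : DT 1 (f ∘ ρ) := dt_comp h hρ

theorem dt_lft {σ : (V' → Bool) → V → Bool} (hσ : ∀ v, DT 1 fun z => σ z v) (v : U ⊕ V) :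
    DT 1 fun p : U ⊕ V' → Bool => lft σ p v := by
  rcases v with u | v
  · exact dt_var (Sum.inl u)
  · exact dt1_comp (ρ := fun (p : U ⊕ V' → Bool) => p ∘ Sum.inr) (hσ v) fun v => dt_var (Sum.inr v)

theorem dt_left (z : V → Bool) (v : U ⊕ V) : DT 1 fun A : U → Bool => Sum.elim A z v := by
  rcases v with u | v
  · exact dt_var u
  · exact DTq.const 1 _

theorem dt_right (A : U → Bool) (v : U ⊕ V) : DT 1 fun z : V → Bool => Sum.elim A z v := by
  rcases v with u | v
  · exact DTq.const 1 _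
  · exact dt_var v

theorem elim_eta (p : U ⊕ V → Bool) : Sum.elim (p ∘ Sum.inl) (p ∘ Sum.inr) = p :=
  funext fun v => by cases v <;> rfl

theorem dnf_fix {P : Set (Fn (U ⊕ V))} {P₀ : Set (Fn U)} (hP : P ⊆ out V '' P₀) {w : ℕ}
    {g : Fn (U ⊕ V)} (hg : IsOr (P ∪ {g | DT 1 g}) w g) (A : U → Bool) :
    Dnf w fun z => g (Sum.elim A z) := by
  obtain ⟨H, h1, h2⟩ := hg
  refine ⟨(· ∘ Sum.elim A) '' H, ?_, fun z => by simp [h2]⟩
  rintro _ ⟨d, hd, rfl⟩
  have := ((h1 d hd).precomp (Q' := {g | DT 1 g}) (Sum.elim A) (by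
    rintro q (hq | hq)
    · obtain ⟨q₀, -, rfl⟩ := hP hq
      exact DTq.const 1 (q₀ A)
    · exact dt1_comp hq (dt_right A))).comp fun g hg => hg
  simpa using this

theorem or_fix {P : Set (Fn (U ⊕ V))} {P₀ : Set (Fn U)} (hP : P ⊆ out V '' P₀) {w : ℕ}
    {g : Fn (U ⊕ V)} (hg : IsOr (P ∪ {g | DT 1 g}) w g) (Z : Set (V → Bool)) {f : Fn U}
    (hf : ∀ A, f A = true ↔ ∃ z ∈ Z, g (Sum.elim A z) = true) :
    IsOr (P₀ ∪ {g | DT 1 g}) w f := by
  obtain ⟨H, h1, h2⟩ := hg
  refine ⟨{u | ∃ d ∈ H, ∃ z ∈ Z, u = d ∘ fun A => Sum.elim A z}, ?_, fun A => ?_⟩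
  · rintro _ ⟨d, hd, z, -, rfl⟩
    refine (h1 d hd).precomp _ ?_
    rintro q (hq | hq)
    · obtain ⟨q₀, h₀, rfl⟩ := hP hq
      exact Or.inl h₀
    · exact Or.inr (dt1_comp hq (dt_left z))
  · rw [hf]
    exact ⟨fun ⟨z, hz, e⟩ => let ⟨d, hd, e'⟩ := (h2 _).1 e; ⟨_, ⟨d, hd, z, hz, rfl⟩, e'⟩,
      fun ⟨_, ⟨d, hd, z, hz, e⟩, e'⟩ => ⟨z, hz, (h2 _).2 ⟨d, hd, by subst e; exact e'⟩⟩⟩

theorem dt1_cases {f : Fn X} (h : DT 1 f) :
    ∃ g : Bool → Bool, (∀ z, f z = g false) ∨ ∃ v, ∀ z, f z = g (z v) := by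
  generalize hn : 1 = n at h
  cases h with
  | const _ b => exact ⟨fun _ => b, Or.inl fun _ => rfl⟩
  | node hg h₀ h₁ =>
    obtain ⟨v, rfl⟩ := hg
    obtain rfl : _ = 0 := (Nat.succ_injective hn).symm
    cases h₀
    cases h₁
    rename_i b₀ b₁
    exact ⟨fun c => bif c then b₁ else b₀, Or.inr ⟨v, fun _ => rfl⟩⟩

theorem split_cert [DecidableEq V] {P : Set (Fn (U ⊕ V))} {P₀ : Set (Fn U)}
    (hP : P ⊆ out V '' P₀) {w : ℕ} {d : Fn (U ⊕ V)} (hd : DTq (P ∪ {g | DT 1 g}) w d)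
    (A : U → Bool) (z : V → Bool) :
    ∃ (D : Finset V) (c : Fn U), D.card ≤ w ∧ DTq (P₀ ∪ {g | DT 1 g}) w c ∧ c A = true ∧
      ∀ A' z', c A' = true → (∀ v ∈ D, z' v = z v) → d (Sum.elim A' z') = d (Sum.elim A z) := by
  induction hd with
  | const w b => exact ⟨∅, fun _ => true, by simp, .const _ _, rfl, fun _ _ _ _ => rfl⟩
  | node hg _ _ ih₀ ih₁ =>
    rename_i w g f₀ f₁ _ _
    obtain ⟨D, c, a1, a2, a3, a4⟩ : ∃ (D : Finset V) (c : Fn U), D.card ≤ w ∧
        DTq (P₀ ∪ {g | DT 1 g}) w c ∧ c A = true ∧ ∀ A' z', c A' = true → (∀ v ∈ D, z' v = z v) →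
          g (Sum.elim A' z') = g (Sum.elim A z) →
          (bif g (Sum.elim A' z') then f₁ (Sum.elim A' z') else f₀ (Sum.elim A' z')) =
            bif g (Sum.elim A z) then f₁ (Sum.elim A z) else f₀ (Sum.elim A z) := by
      cases hg' : g (Sum.elim A z)
      · obtain ⟨D, c, a1, a2, a3, a4⟩ := ih₀
        exact ⟨D, c, a1, a2, a3, fun A' z' b1 b2 b3 => by rw [b3]; exact a4 A' z' b1 b2⟩
      · obtain ⟨D, c, a1, a2, a3, a4⟩ := ih₁
        exact ⟨D, c, a1, a2, a3, fun A' z' b1 b2 b3 => by rw [b3]; exact a4 A' z' b1 b2⟩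
    have key : ∀ q ∈ P₀ ∪ {g | DT 1 g}, (∀ A' z', q A' = q A →
        g (Sum.elim A' z') = g (Sum.elim A z)) → ∃ (D : Finset V) (c : Fn U), D.card ≤ w + 1 ∧
        DTq (P₀ ∪ {g | DT 1 g}) (w + 1) c ∧ c A = true ∧ ∀ A' z', c A' = true →
          (∀ v ∈ D, z' v = z v) →
          (bif g (Sum.elim A' z') then f₁ (Sum.elim A' z') else f₀ (Sum.elim A' z')) =
            bif g (Sum.elim A z) then f₁ (Sum.elim A z) else f₀ (Sum.elim A z) := by
      intro q hq hq'
      have h1 : DTq (P₀ ∪ {g | DT 1 g}) 1 fun A' => q A' == q A :=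
        (DTq.node hq (.const 0 (!q A)) (.const 0 (q A))).congr fun A' => by
          cases q A' <;> cases q A <;> rfl
      refine ⟨D, _, by omega, dtq_and h1 a2, by simp [a3], fun A' z' b1 b2 => ?_⟩
      simp only [Bool.and_eq_true, beq_iff_eq] at b1
      exact a4 A' z' b1.2 b2 (hq' A' z' b1.1)
    rcases hg with hg | hg
    · obtain ⟨q, h₀, rfl⟩ := hP hg
      exact key q (Or.inl h₀) fun A' z' h => h
    · obtain ⟨γ, h | ⟨u | v, h⟩⟩ := dt1_cases hg
      · exact key (fun _ => true) (Or.inr (DTq.const 1 _)) fun A' z' _ => by rw [h, h]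
      · exact key (fun A => A u) (Or.inr (dt_var u)) fun A' z' e => by
          rw [h, h]; exact congrArg γ e
      · refine ⟨insert v D, c, (card_insert_le _ _).trans (by omega), a2.succ, a3,
          fun A' z' b1 b2 => a4 A' z' b1 (fun u hu => b2 u (mem_insert_of_mem hu)) ?_⟩
        rw [h, h]
        exact congrArg γ (b2 v (mem_insert_self _ _))

theorem exists_base {w N h : ℕ} {P : Finset (Fn (U ⊕ V))} (hP : P.card ≤ N)
    (a : MC w N h 0 (P : Set (Fn (U ⊕ V)))) : ∃ P₀ : Finset (Fn U), P₀.card ≤ N ∧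
      AC w N h (P₀ : Set (Fn U)) ∧ (P : Set (Fn (U ⊕ V))) ⊆ out V '' P₀ := by
  classical
  obtain ⟨F₀, h1, h2⟩ := a
  choose! c hc hc' using fun f (hf : f ∈ P) => h2 hf
  refine ⟨P.image c, card_image_le.trans hP, h1.mono fun f hf => ?_, fun f hf =>
    ⟨c f, mem_coe.2 (mem_image_of_mem _ hf), hc' f hf⟩⟩
  obtain ⟨g, hg, rfl⟩ := mem_image.1 hf
  exact hc g hg

theorem mc_round [Fintype V'] [DecidableEq V'] {w N h t m a : ℕ} (ha : Fintype.card V' < 2 ^ a)
    (hm : w ≤ m) {F : Set (Fn (U ⊕ V))} (hF : MC w N h (t + 2) F) :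
    ∃ G₁ : Finset (Fn (U ⊕ V)), G₁.card ≤ N ∧ (∀ g ∈ G₁, ∀ A, Dnf w fun z => g (Sum.elim A z)) ∧
      ∀ σ : (V' → Bool) → V → Bool, (∀ v, DT 1 fun z => σ z v) →
        ∃ τ : Fn (U ⊕ V) → Fn (U ⊕ V'),
          MC (w * (m + 1)) (N * 2 ^ (2 * ((a + 1) * m) + 1)) (h + 1) (t + 1) (τ '' F) ∧
          ∀ p, (∀ g ∈ G₁, Cert m ((fun z => g (Sum.elim (p ∘ Sum.inl) z)) ∘ σ) (p ∘ Sum.inr)) →
            ∀ f ∈ F, τ f p = f (lft σ p) := by
  classical
  have hN : N ≤ N * 2 ^ (2 * ((a + 1) * m) + 1) := Nat.le_mul_of_pos_right _ (by positivity)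
  induction t generalizing F with
  | succ t ih =>
    obtain ⟨G, h1, h2, h3⟩ := hF
    obtain ⟨G₁, a1, a2, a3⟩ := ih h2
    refine ⟨G₁, a1, a2, fun σ hσ => ?_⟩
    obtain ⟨τ, b1, b2⟩ := a3 σ hσ
    choose! τ' c1 c2 using fun f (hf : f ∈ F) => or_cov (Q := (G.image τ : Set _) ∪ {g | DT 1 g})
      (m := m + 1) (r := lft σ) (P := {p | ∀ g ∈ G₁, Cert m
        ((fun z => g (Sum.elim (p ∘ Sum.inl) z)) ∘ σ) (p ∘ Sum.inr)}) (by
        rintro q (hq | hq)
        · exact cov_of_eq (Or.inl (mem_coe.2 (mem_image_of_mem _ hq))) (by omega)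
            fun p hp => b2 p hp q hq
        · exact cov_of_eq (Or.inr (dt1_comp hq (dt_lft hσ))) (by omega) fun _ _ => rfl) (h3 f hf)
    refine ⟨τ', ⟨G.image τ, card_image_le.trans (h1.trans hN), by rwa [coe_image], ?_⟩,
      fun p hp f hf => c2 f hf p hp⟩
    rintro _ ⟨f, hf, rfl⟩
    exact c1 f hf
  | zero =>
    obtain ⟨G, h1, ⟨P, h2, h3, h4⟩, h5⟩ := hF
    obtain ⟨P₀, p1, p2, p3⟩ := exists_base h2 h3
    refine ⟨G, h1, fun g hg => dnf_fix p3 (h4 g hg), fun σ hσ => ?_⟩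
    let lv : Fn (U ⊕ V) → Finset V' → Finset V' → Fn U := fun g D E A =>
      decide (∃ z ∈ σ '' {z' | ∀ v ∈ D, z' v = decide (v ∈ E)}, g (Sum.elim A z) = true)
    let on : Fn (U ⊕ V) → Finset V' → Finset V' → Fn U := fun g D E A =>
      decide (∃ c ∈ {c | DTq ((P₀ : Set _) ∪ {g | DT 1 g}) w c ∧ ∀ A', c A' = true → ∀ z',
        (∀ v ∈ D, z' v = decide (v ∈ E)) → g (Sum.elim A' (σ z')) = true}, c A = true)
    let S : Finset (Finset V') := {D | D.card ≤ m}
    let P' : Finset (Fn U) := (G ×ˢ (S ×ˢ S) ×ˢ (univ : Finset Bool)).image fun x =>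
      bif x.2.2 then on x.1 x.2.1.1 x.2.1.2 else lv x.1 x.2.1.1 x.2.1.2
    have hP' : AC (w * (m + 1)) (N * 2 ^ (2 * ((a + 1) * m) + 1)) (h + 1) (P' : Set (Fn U)) := by
      refine ⟨P₀, p1.trans hN, ac_up p2 (Nat.le_mul_of_pos_right _ (by omega)) hN, fun f hf => ?_⟩
      obtain ⟨⟨g, ⟨D, E⟩, _ | _⟩, hx, rfl⟩ := mem_image.1 hf
      · exact isOr_mono (or_fix p3 (h4 g (mem_product.1 hx).1) _ fun A => decide_eq_true_iff)
          subset_rfl (Nat.le_mul_of_pos_right _ (by omega))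
      · exact ⟨_, fun c hc => hc.1.mono (Nat.le_mul_of_pos_right _ (by omega)),
          fun A => decide_eq_true_iff⟩
    have hag : ∀ D E : Finset V', D.card ≤ m → ∀ Q : Set (Fn (U ⊕ V')), DTq (Q ∪ {g | DT 1 g}) m
        fun p => decide (∀ v ∈ D, (p (Sum.inr v) == decide (v ∈ E)) = true) := by
      intro D E hD Q
      refine (dtq_all D (fun v (p : U ⊕ V' → Bool) => p (Sum.inr v) == decide (v ∈ E))
        (fun v _ => dtq_one (Or.inr ?_)) fun z => decide_eq_true_iff).mono hD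
      exact (DTq.node (Set.mem_range_self (Sum.inr v)) (.const 0 (!decide (v ∈ E)))
        (.const 0 (decide (v ∈ E)))).congr fun z => by
          cases z (Sum.inr v) <;> cases decide (v ∈ E) <;> rfl
    have hmem : ∀ g ∈ G, ∀ D E : Finset V', D.card ≤ m → E.card ≤ m → ∀ b : Bool,
        out V' (bif b then on g D E else lv g D E) ∈
          ((P'.image (out V') : Finset _) : Set (Fn (U ⊕ V'))) := fun g hg D E hD hE b =>
      mem_coe.2 (mem_image_of_mem _ (mem_image.2 ⟨(g, (D, E), b), by simp [S, hg, hD, hE], rfl⟩))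
    have hE : ∀ (D : Finset V') (z : V' → Bool), ∀ v ∈ D,
        z v = decide (v ∈ D.filter (z · = true)) := fun D z v hv => by simp [hv]
    choose! τ' c1 c2 using fun f (hf : f ∈ F) => or_cov
      (Q := (P'.image (out V') : Set _) ∪ {g | DT 1 g})
      (m := m + 1) (r := lft σ) (P := {p | ∀ g ∈ G, Cert m
        ((fun z => g (Sum.elim (p ∘ Sum.inl) z)) ∘ σ) (p ∘ Sum.inr)}) (by
        rintro g (hg | hg)
        swap
        · exact cov_of_eq (Or.inr (dt1_comp hg (dt_lft hσ))) (by omega) fun _ _ => rfl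
        intro β
        refine ⟨{u | ∃ D E : Finset V', D.card ≤ m ∧ E.card ≤ m ∧ u = fun p =>
          (out V' (bif β then on g D E else lv g D E) p == β) &&
            decide (∀ v ∈ D, (p (Sum.inr v) == decide (v ∈ E)) = true)}, ?_, fun p hp => ?_⟩
        · rintro _ ⟨D, E, hD, hE, rfl⟩
          refine dtq_and ?_ (hag D E hD _)
          exact (DTq.node (Or.inl (hmem g hg D E hD hE β)) (.const 0 (!β)) (.const 0 β)).congr
            fun p => by cases out V' (bif β then on g D E else lv g D E) p <;> cases β <;> rfl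
        · constructor
          · intro hβ
            cases β
            · obtain ⟨D, d1, d2⟩ := hp g hg
              refine ⟨_, ⟨D, D.filter ((p ∘ Sum.inr) · = true), d1,
                (card_filter_le _ _).trans d1, rfl⟩, ?_⟩
              simp only [Bool.and_eq_true, beq_iff_eq, decide_eq_true_eq, cond_false, out, lv,
                decide_eq_false_iff_not]
              refine ⟨?_, hE D (p ∘ Sum.inr)⟩
              rintro ⟨_, ⟨z', hz', rfl⟩, e⟩
              have := d2 z' fun v hv => (hz' v hv).trans (hE D (p ∘ Sum.inr) v hv).symm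
              exact Bool.false_ne_true (hβ.symm.trans (this.symm.trans e))
            · obtain ⟨H, e1, e2⟩ := h4 g hg
              obtain ⟨d, hd, e3⟩ := (e2 _).1 hβ
              obtain ⟨D, c, d1, d2, d3, d4⟩ := split_cert (P := out V' '' P₀) subset_rfl
                ((e1 d hd).precomp (lft σ) (by
                  rintro q (hq | hq)
                  · obtain ⟨q₀, h₀, rfl⟩ := p3 hq
                    exact Or.inl ⟨q₀, h₀, rfl⟩
                  · exact Or.inr (dt1_comp hq (dt_lft hσ)))) (p ∘ Sum.inl) (p ∘ Sum.inr)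
              refine ⟨_, ⟨D, D.filter ((p ∘ Sum.inr) · = true), d1.trans hm,
                (card_filter_le _ _).trans (d1.trans hm), rfl⟩, ?_⟩
              simp only [Bool.and_eq_true, beq_iff_eq, decide_eq_true_eq, cond_true, out, on]
              refine ⟨⟨c, ⟨d2, fun A' e z' hz' => (e2 _).2 ⟨d, hd, ?_⟩⟩, d3⟩, hE D (p ∘ Sum.inr)⟩
              exact (d4 A' z' e fun v hv =>
                (hz' v hv).trans (hE D (p ∘ Sum.inr) v hv).symm).trans e3
          · rintro ⟨_, ⟨D, E, -, -, rfl⟩, e⟩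
            simp only [Bool.and_eq_true, beq_iff_eq, decide_eq_true_eq] at e
            cases β
            · simp only [cond_false, out, lv, decide_eq_false_iff_not] at e
              exact Bool.eq_false_iff.2 fun e' => e.1 ⟨_, ⟨p ∘ Sum.inr, e.2, rfl⟩, e'⟩
            · simp only [cond_true, out, on, decide_eq_true_eq] at e
              obtain ⟨⟨c, ⟨-, e1⟩, e2⟩, e3⟩ := e
              exact e1 _ e2 _ e3) (h5 f hf)
    refine ⟨τ', ⟨P'.image (out V'), card_image_le.trans (card_image_le.trans ?_),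
      ⟨_, hP', by rw [coe_image]⟩, ?_⟩, fun p hp f hf => c2 f hf p hp⟩
    · have := card_small ha m
      rw [card_product, card_product, card_product, card_univ, Fintype.card_bool, pow_succ,
        two_mul, pow_add]
      exact Nat.mul_le_mul h1 (Nat.mul_le_mul_right _ (Nat.mul_le_mul this this))
    · rintro _ ⟨f, hf, rfl⟩
      exact c1 f hf

theorem ac_union2 {w N N' k : ℕ} {F F' : Set (Fn U)} (h : AC w N k F) (h' : AC w N' k F') :
    AC w (N + N') k (F ∪ F') := by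
  classical
  induction k generalizing F F' with
  | zero => exact fun f hf => hf.elim (h f) (h' f)
  | succ k ih =>
    obtain ⟨G, a1, a2, a3⟩ := h
    obtain ⟨G', b1, b2, b3⟩ := h'
    refine ⟨G ∪ G', (card_union_le _ _).trans (by omega), by rw [coe_union]; exact ih a2 b2, ?_⟩
    rintro f (hf | hf)
    · exact isOr_mono (a3 f hf) (Set.union_subset_union_left _ (by simp)) le_rfl
    · exact isOr_mono (b3 f hf) (Set.union_subset_union_left _ (by simp)) le_rfl

/-- The inner variables are replaced by functions both of whose values have small witnesses. -/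
theorem mc_subst {w N k t : ℕ} (hw : 1 ≤ w) {mu nu : V → Fn U} {M : Finset (Fn U)}
    (hM : M.card ≤ N) (hM' : AC w N (k + 1) (M : Set (Fn U))) (h1 : ∀ v, mu v ∈ M)
    (h2 : ∀ v, nu v ∈ M) {F : Set (Fn (U ⊕ V))} (hF : MC w N k t F) :
    ∃ τ : Fn (U ⊕ V) → Fn U, AC (w * w) ((t + 1) * N) (k + t) (τ '' F) ∧
      ∀ A, (∀ v, nu v A = !mu v A) → ∀ f ∈ F, τ f A = f (Sum.elim A fun v => mu v A) := by
  classical
  have hww : w ≤ w * w := Nat.le_mul_of_pos_left _ hw
  induction t generalizing F with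
  | zero =>
    obtain ⟨F₀, a1, a2⟩ := hF
    choose! c hc hc' using a2
    refine ⟨c, (ac_up a1 hww (by omega)).mono ?_, fun A _ f hf => ?_⟩
    · rintro _ ⟨f, hf, rfl⟩
      exact hc hf
    · conv_rhs => rw [← hc' hf]
      rfl
  | succ t ih =>
    obtain ⟨G, a1, a2, a3⟩ := hF
    obtain ⟨τ, b1, b2⟩ := ih a2
    obtain ⟨G', c1, c2, c3⟩ : AC w N (k + t + 1) (M : Set (Fn U)) := by
      rw [add_right_comm]
      exact ac_lift hw hM hM' t
    have hsub : (G' : Set (Fn U)) ∪ {g | DT 1 g} ⊆ (G.image τ ∪ G' : Finset _) ∪ {g | DT 1 g} :=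
      Set.union_subset_union_left _ (by simp)
    choose! τ' d1 d2 using fun f (hf : f ∈ F) => or_cov
      (Q := ((G.image τ ∪ G' : Finset _) : Set _) ∪ {g | DT 1 g}) (m := w)
      (r := fun A => Sum.elim A fun v => mu v A) (P := {A | ∀ v, nu v A = !mu v A}) (by
        rintro q (hq | hq)
        · exact cov_of_eq (Or.inl (mem_coe.2 (mem_union_left _ (mem_image_of_mem _ hq)))) hw
            fun A hA => b2 A hA q hq
        have e := cov_dt (Q := ((G.image τ ∪ G' : Finset _) : Set _) ∪ {g | DT 1 g}) (m := w)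
          (r := fun A => Sum.elim A fun v => mu v A) (P := {A | ∀ v, nu v A = !mu v A}) ?_ hq
        · rwa [one_mul] at e
        rintro _ ⟨u | v, rfl⟩
        · exact cov_of_eq (Or.inr (dt_var u)) hw fun _ _ => rfl
        · rintro (_ | _)
          · obtain ⟨H, e1, e2⟩ := c3 _ (h2 v)
            exact ⟨H, fun h hh => dtq_sub (e1 h hh) hsub, fun A hA => by
              rw [← e2, hA v]; simp⟩
          · obtain ⟨H, e1, e2⟩ := c3 _ (h1 v)
            exact ⟨H, fun h hh => dtq_sub (e1 h hh) hsub, fun A _ => e2 A⟩) (a3 f hf)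
    refine ⟨τ', ⟨G.image τ ∪ G', (card_union_le _ _).trans ?_, ?_, ?_⟩,
      fun A hA f hf => d2 f hf A hA⟩
    · have := card_image_le (s := G) (f := τ)
      nlinarith
    · rw [coe_union, coe_image, add_mul (t + 1), one_mul]
      exact ac_union2 b1 (ac_up c2 hww le_rfl)
    · rintro _ ⟨f, hf, rfl⟩
      exact d1 f hf

end

section
variable {X X' Ω : Type} [Fintype Ω]

open Classical in
/-- The weight of an event. -/
noncomputable def Pr (μ : Ω → ℝ) (E : Ω → Prop) : ℝ := ∑ ω, if E ω then μ ω else 0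

theorem Pr.mono {μ : Ω → ℝ} (h : ∀ ω, 0 ≤ μ ω) {E E' : Ω → Prop}
    (hE : ∀ ω, μ ω ≠ 0 → E ω → E' ω) : Pr μ E ≤ Pr μ E' := by
  refine sum_le_sum fun ω _ => ?_
  by_cases h0 : μ ω = 0
  · simp [h0]
  · by_cases h1 : E ω
    · rw [if_pos h1, if_pos (hE ω h0 h1)]
    · rw [if_neg h1]
      split_ifs
      exacts [h ω, le_rfl]

theorem Pr.union {α : Type} {μ : Ω → ℝ} (h : ∀ ω, 0 ≤ μ ω) (S : Finset α) (E : α → Ω → Prop) :
    Pr μ (fun ω => ∃ a ∈ S, E a ω) ≤ ∑ a ∈ S, Pr μ (E a) := by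
  classical
  unfold Pr
  rw [sum_comm]
  refine sum_le_sum fun ω _ => ?_
  have h1 : ∀ a, (0 : ℝ) ≤ if E a ω then μ ω else 0 := fun a => by
    split_ifs
    exacts [h ω, le_rfl]
  split_ifs with h2
  · obtain ⟨a, ha, e⟩ := h2
    refine le_trans ?_ (single_le_sum (f := fun a => if E a ω then μ ω else 0)
      (fun a _ => by convert h1 a) ha)
    simp [e]
  · exact sum_nonneg fun a _ => by convert h1 a

/-- A random member of `C` agrees with `t` at each point of `X₀` up to probability `ε`. -/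
def Apx (C : Set (X → Bool)) (X₀ : Set X) (t : X → Bool) (ε : ℝ) : Prop :=
  ∃ (ι : Type) (_ : Fintype ι) (a : ι → ℝ) (f : ι → X → Bool), (∀ i, 0 ≤ a i) ∧ ∑ i, a i = 1 ∧
    (∀ i, f i ∈ C) ∧ ∀ q ∈ X₀, Pr a (fun i => f i q ≠ t q) ≤ ε

theorem Apx.step {C : Set (X → Bool)} {X₀ : Set X} {t : X → Bool} {ε δ : ℝ} (h : Apx C X₀ t ε)
    {C' : Set (X' → Bool)} {X₀' : Set X'} {t' : X' → Bool} {μ : Ω → ℝ} (h0 : ∀ ω, 0 ≤ μ ω)
    (h1 : ∑ ω, μ ω = 1) (σ : Ω → X' → X)
    (hs : ∀ ω, μ ω ≠ 0 → ∀ p ∈ X₀', σ ω p ∈ X₀ ∧ t (σ ω p) = t' p)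
    (hr : ∀ f ∈ C, ∃ f' : Ω → X' → Bool, (∀ ω, f' ω ∈ C') ∧
      ∀ p ∈ X₀', Pr μ (fun ω => f' ω p ≠ f (σ ω p)) ≤ δ) : Apx C' X₀' t' (ε + δ) := by
  classical
  obtain ⟨ι, _, a, f, a0, a1, a2, a3⟩ := h
  choose f' b1 b2 using fun i => hr (f i) (a2 i)
  refine ⟨ι × Ω, inferInstance, fun x => a x.1 * μ x.2, fun x => f' x.1 x.2,
    fun x => mul_nonneg (a0 _) (h0 _), ?_, fun x => b1 _ _, fun p hp => ?_⟩
  · rw [Fintype.sum_prod_type]
    simp only [← mul_sum, h1, mul_one, a1]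
  · have e1 : ∑ ω, μ ω * Pr a (fun i => f i (σ ω p) ≠ t' p) ≤ ε := by
      calc _ ≤ ∑ ω, μ ω * ε := sum_le_sum fun ω _ => ?_
        _ = ε := by rw [← sum_mul, h1, one_mul]
      by_cases h2 : μ ω = 0
      · simp [h2]
      · rw [← (hs ω h2 p hp).2]
        exact mul_le_mul_of_nonneg_left (a3 _ (hs ω h2 p hp).1) (h0 ω)
    have e2 : ∑ i, a i * Pr μ (fun ω => f' i ω p ≠ f i (σ ω p)) ≤ δ := by
      calc _ ≤ ∑ i, a i * δ := sum_le_sum fun i _ => mul_le_mul_of_nonneg_left (b2 i p hp) (a0 i)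
        _ = δ := by rw [← sum_mul, a1, one_mul]
    refine le_trans ?_ (add_le_add e1 e2)
    simp only [Pr, mul_sum]
    rw [Fintype.sum_prod_type, sum_comm (s := (univ : Finset Ω)), ← sum_add_distrib]
    refine sum_le_sum fun i _ => ?_
    rw [← sum_add_distrib]
    refine sum_le_sum fun ω _ => ?_
    have := mul_nonneg (h0 ω) (a0 i)
    rcases Bool.eq_false_or_eq_true (f' i ω p) with c1 | c1 <;>
      rcases Bool.eq_false_or_eq_true (f i (σ ω p)) with c2 | c2 <;>
      rcases Bool.eq_false_or_eq_true (t' p) with c3 | c3 <;> simp [c1, c2, c3, mul_comm, this]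

theorem Apx.map {C : Set (X → Bool)} {X₀ : Set X} {t : X → Bool} {ε : ℝ} (h : Apx C X₀ t ε)
    {C' : Set (X' → Bool)} {X₀' : Set X'} {t' : X' → Bool} (σ : X' → X)
    (hs : ∀ p ∈ X₀', σ p ∈ X₀ ∧ t (σ p) = t' p)
    (hr : ∀ f ∈ C, ∃ f' ∈ C', ∀ p ∈ X₀', f' p = f (σ p)) : Apx C' X₀' t' ε := by
  have := h.step (Ω := Unit) (μ := fun _ => 1) (δ := 0) (C' := C') (by simp) (by simp)
    (fun _ => σ) (fun _ _ => hs) fun f hf => by
      obtain ⟨f', a, b⟩ := hr f hf
      exact ⟨fun _ => f', fun _ => a, fun p hp => by simp [Pr, b p hp]⟩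
  rwa [add_zero] at this

theorem Apx.le {C : Set (X → Bool)} {X₀ : Set X} {t : X → Bool} {ε ε' : ℝ} (h : Apx C X₀ t ε)
    (e : ε ≤ ε') : Apx C X₀ t ε' := by
  obtain ⟨ι, _, a, f, a0, a1, a2, a3⟩ := h
  exact ⟨ι, _, a, f, a0, a1, a2, fun q hq => (a3 q hq).trans e⟩

theorem Apx.half {C : Set (X → Bool)} {X₀ : Set X} {t : X → Bool} {ε : ℝ} (h : Apx C X₀ t ε)
    {p q : X} (hp : p ∈ X₀) (hq : q ∈ X₀) (ht : t p ≠ t q) (hC : ∀ f ∈ C, f p = f q) :
    1 ≤ 2 * ε := by
  obtain ⟨ι, _, a, f, a0, a1, a2, a3⟩ := h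
  rw [two_mul]
  refine le_trans ?_ (add_le_add (a3 p hp) (a3 q hq))
  rw [← a1, Pr, Pr, ← sum_add_distrib]
  refine sum_le_sum fun i _ => ?_
  rw [hC _ (a2 i)]
  revert ht
  cases f i q <;> cases t p <;> cases t q <;> simp

end

section
variable {U V V' : Type}

/-- A random substitution under which disjunctions of small trees have small certificates. -/
def Round (w : ℕ) (η : ℝ) (Good : ((V' → Bool) → V → Bool) → Prop) : Prop :=
  ∃ (Ω : Type) (_ : Fintype Ω) (μ : Ω → ℝ) (σ : Ω → (V' → Bool) → V → Bool), (∀ ω, 0 ≤ μ ω) ∧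
    ∑ ω, μ ω = 1 ∧ (∀ ω v, DT 1 fun z => σ ω z v) ∧ (∀ ω, μ ω ≠ 0 → Good (σ ω)) ∧
    ∀ φ, Dnf w φ → ∀ z, 2 ^ w * Pr μ (fun ω => ¬Cert (2 * w * w) (φ ∘ σ ω) z) ≤ η ∧
      Pr μ (fun ω => φ (σ ω z) ≠ φ (σ ω fun _ => false)) ≤ η

/-- Circuits of depth `d` after `h` rounds. -/
def Cl (U V : Type) (w d h : ℕ) : Set (Fn (U ⊕ V)) :=
  {f | MC w (2 ^ w) (min d h) (d - h) {f}}

theorem apx_round [Fintype V'] [DecidableEq V'] {w d h : ℕ} {η ε : ℝ} (hw : 1 ≤ w)
    (hV : Fintype.card V' < 2 ^ w) {Good : ((V' → Bool) → V → Bool) → Prop}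
    (hR : Round w η Good) {X₀ : Set (U ⊕ V → Bool)} {t : Fn (U ⊕ V)}
    (a : Apx (Cl U V w d h) X₀ t ε) {X₀' : Set (U ⊕ V' → Bool)} {t' : Fn (U ⊕ V')}
    (hs : ∀ σ, Good σ → ∀ p ∈ X₀', lft σ p ∈ X₀ ∧ t (lft σ p) = t' p) :
    Apx (Cl U V' (10 * w ^ 3) d (h + 1)) X₀' t' (ε + η) := by
  obtain ⟨Ω, _, μ, σ, h0, h1, h2, h3, h4⟩ := hR
  have hw3 : w ≤ 10 * w ^ 3 := by nlinarith [Nat.pow_le_pow_left hw 2, Nat.zero_le (w ^ 3)]
  have hη : 0 ≤ η := le_trans (sum_nonneg fun ω _ => by split_ifs; exacts [h0 ω, le_rfl])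
    (h4 (fun _ => false) ⟨∅, by simp, by simp⟩ fun _ => false).2
  refine a.step h0 h1 (fun ω => lft (σ ω)) (fun ω hω => hs _ (h3 ω hω)) fun f hf => ?_
  obtain ⟨_ | _ | t, ht⟩ : ∃ t, d - h = t := ⟨_, rfl⟩
  · rw [Cl, Set.mem_ofPred_eq, ht] at hf
    obtain ⟨F₀, b1, b2⟩ := hf
    obtain ⟨f₀, b3, rfl⟩ := b2 rfl
    refine ⟨fun _ => out V' f₀, fun _ => ?_, fun p _ => ?_⟩
    · rw [Cl, Set.mem_ofPred_eq, show d - (h + 1) = 0 by omega, show min d (h + 1) = min d h by omega]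
      exact ⟨F₀, ac_up b1 hw3 (Nat.pow_le_pow_right two_pos hw3),
        Set.singleton_subset_iff.2 ⟨f₀, b3, rfl⟩⟩
    · exact le_trans (le_of_eq (sum_eq_zero fun ω _ => if_neg fun e => e rfl)) hη
  · rw [Cl, Set.mem_ofPred_eq, ht] at hf
    obtain ⟨P, b1, b2, b3⟩ := hf
    obtain ⟨P₀, p1, p2, p3⟩ := exists_base b1 b2
    refine ⟨fun ω => out V' fun A => f (Sum.elim A (σ ω fun _ => false)), fun ω => ?_,
      fun p _ => le_trans (Pr.mono h0 fun ω _ e => Ne.symm e)
        (h4 _ (dnf_fix p3 (b3 f rfl) (p ∘ Sum.inl)) (p ∘ Sum.inr)).2⟩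
    · rw [Cl, Set.mem_ofPred_eq, show d - (h + 1) = 0 by omega,
        show min d (h + 1) = min d h + 1 by omega]
      refine ⟨_, ac_up ⟨P₀, p1, p2, ?_⟩ hw3 (Nat.pow_le_pow_right two_pos hw3),
        Set.singleton_subset_iff.2 ⟨_, rfl, rfl⟩⟩
      rintro _ rfl
      exact or_fix p3 (b3 f rfl) {σ ω fun _ => false} (by simp)
  · rw [Cl, Set.mem_ofPred_eq, ht] at hf
    obtain ⟨G, b1, b2, b3⟩ := mc_round (m := 2 * w * w) hV (by nlinarith) hf
    choose τ c1 c2 using fun ω => b3 (σ ω) (h2 ω)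
    refine ⟨fun ω => τ ω f, fun ω => ?_, fun p _ => ?_⟩
    · rw [Cl, Set.mem_ofPred_eq, show d - (h + 1) = t + 1 by omega,
        show min d (h + 1) = min d h + 1 by omega]
      refine ((c1 ω).up (by nlinarith [Nat.pow_le_pow_left hw 2]) ?_).mono (by simp)
      rw [← pow_add]
      exact Nat.pow_le_pow_right two_pos (by nlinarith [Nat.pow_le_pow_left hw 2])
    · refine (Pr.mono h0 (E' := fun ω => ∃ g ∈ G, ¬Cert (2 * w * w)
        ((fun z => g (Sum.elim (p ∘ Sum.inl) z)) ∘ σ ω) (p ∘ Sum.inr)) fun ω _ e => ?_).trans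
        ((Pr.union h0 _ _).trans ?_)
      · by_contra hc
        push Not at hc
        exact e (c2 ω p hc f rfl)
      · refine (sum_le_card_nsmul _ _ (η / 2 ^ w) fun g hg => ?_).trans ?_
        · rw [le_div_iff₀ (by positivity), mul_comm]
          exact (h4 _ (b2 g hg _) _).1
        · rw [nsmul_eq_mul, mul_div_assoc', div_le_iff₀ (by positivity), mul_comm]
          exact mul_le_mul_of_nonneg_left (by exact_mod_cast b1) hη

end

end Pool.Agent.MP_a2d820_lc.h70

end MrgPart0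

-- ======== part 1: formerly Pool.Agent.MP_a2d820_lc.h70.Top
section MrgPart1

/-!
The last round: a bit is hidden as the parity of a random height. A false disjunction of small
terms is blocked by few heights, by a diagonal shift of the heights and a deletion of keys.
-/

set_option autoImplicit false

namespace Pool.Agent.MP_a2d820_lc.h70

open Finset Pool.Agent.MP_a2d820_lc.h69 Pool.Agent.MP_a2d820_lc.h31u

/-- Positions: a code, a level and a key. -/
abbrev TV (I : Type) (T K : ℕ) := I × Fin (2 * T) × Fin K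

/-- Configurations: half-heights and keys, possibly deleted. -/
abbrev Cfg (I : Type) (T K l : ℕ) := (I → Fin T) × (I × Fin (2 * T) → Fin K ⊕ Fin l)

theorem find_mono {α : Type} {p p' : α → Bool} {F : List α} (h : ∀ a, p' a = true → p a = true)
    {C : α} (h1 : F.find? p = some C) (h2 : p' C = true) : F.find? p' = some C := by
  rw [List.find?_eq_some_iff_append] at h1 ⊢
  obtain ⟨-, as, bs, e, h3⟩ := h1
  refine ⟨h2, as, bs, e, fun a ha => ?_⟩
  have := h3 a ha
  have := h a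
  cases hp : p' a <;> simp_all

theorem find_none {α : Type} {p p' : α → Bool} {F : List α} (h : ∀ a, p' a = true → p a = true)
    (h1 : F.find? p = none) : F.find? p' = none :=
  List.find?_eq_none.2 fun a ha e => List.find?_eq_none.1 h1 a ha (h a e)

theorem dt1_of {V : Type} (γ : Bool → Bool) (v : V) : DT 1 fun z : V → Bool => γ (z v) :=
  (DTq.node (Set.mem_range_self v) (.const 0 (γ false)) (.const 0 (γ true))).congr fun z => by
    cases z v <;> rfl

variable {I : Type} [DecidableEq I] {T K l : ℕ}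

/-- The position carries the key of its block. -/
def hit (c : Cfg I T K l) (v : TV I T K) : Prop := c.2 (v.1, v.2.1) = Sum.inl v.2.2

instance (c : Cfg I T K l) : DecidablePred (hit c) := fun v =>
  inferInstanceAs (Decidable (c.2 (v.1, v.2.1) = Sum.inl v.2.2))

/-- The assignment that is false exactly at the keys below the height. -/
def asg (c : Cfg I T K l) (b : I → Bool) (v : TV I T K) : Bool :=
  !decide (hit c v ∧ v.2.1.1 ≤ 2 * (c.1 v.1).1 + (b v.1).toNat)

variable (F : List (Term (TV I T K))) (b : I → Bool)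

/-- The term survives when only the codes in `X` are known. -/
def tlive (X : Finset I) (up : Bool) (c : Cfg I T K l) (C : Term (TV I T K)) : Bool :=
  decide (∀ v ∈ C.1, (C.2 v = false → hit c v ∧
    v.2.1.1 ≤ 2 * (c.1 v.1).1 + if v.1 ∉ X ∧ up = true then 1 else (b v.1).toNat) ∧
    (C.2 v = true → v.1 ∈ X → asg c b v = true))

/-- The term chosen in a round. -/
def pick (X : Finset I) (c : Cfg I T K l) : Option (Term (TV I T K)) :=
  (F.find? (tlive b X false c)).or (F.find? (tlive b X true c))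

/-- The codes marked after some rounds. -/
def Xs (c : Cfg I T K l) : ℕ → Finset I
  | 0 => ∅
  | i + 1 => Xs c i ∪ (pick F b (Xs c i) c).elim ∅ fun C => C.1.image Prod.fst

/-- The first `i` rounds all find a false term. -/
def Ev (c : Cfg I T K l) (i : ℕ) : Prop :=
  ∀ i' < i, ∃ C, pick F b (Xs F b c i') c = some C ∧ sat (asg c b) C = false

/-- The first configuration is below the second and equal to it on `Y`. -/
def Le (Y : Finset I) (c' c : Cfg I T K l) : Prop :=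
  (∀ x ∈ Y, c'.1 x = c.1 x ∧ ∀ j, c'.2 (x, j) = c.2 (x, j)) ∧ (∀ x, (c'.1 x).1 ≤ (c.1 x).1) ∧
    ∀ v, hit c' v → hit c v

variable {F b}

omit [DecidableEq I] in
theorem asg_congr {c' c : Cfg I T K l} {v : TV I T K} (h1 : c'.1 v.1 = c.1 v.1)
    (h2 : c'.2 (v.1, v.2.1) = c.2 (v.1, v.2.1)) : asg c' b v = asg c b v :=
  congrArg _ (decide_eq_decide.2 (by rw [hit, hit, h1, h2]))

theorem tlive_iff {X : Finset I} {up : Bool} {c : Cfg I T K l} {C : Term (TV I T K)} :
    tlive b X up c C = true ↔ ∀ v ∈ C.1, (C.2 v = false → hit c v ∧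
    v.2.1.1 ≤ 2 * (c.1 v.1).1 + if v.1 ∉ X ∧ up = true then 1 else (b v.1).toNat) ∧
    (C.2 v = true → v.1 ∈ X → asg c b v = true) := decide_eq_true_iff

omit [DecidableEq I] in
theorem Le.asg {Y : Finset I} {c' c : Cfg I T K l} (h : Le Y c' c) {v : TV I T K}
    (hv : v.1 ∈ Y) : asg c' b v = asg c b v := asg_congr (h.1 _ hv).1 ((h.1 _ hv).2 _)

theorem Le.live {X Y : Finset I} {c' c : Cfg I T K l} (h : Le Y c' c) (hX : X ⊆ Y) (up : Bool)
    (C : Term (TV I T K)) (e : tlive b X up c' C = true) : tlive b X up c C = true := by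
  simp only [tlive, decide_eq_true_eq] at e ⊢
  refine fun v hv => ⟨fun h1 => ⟨h.2.2 v ((e v hv).1 h1).1, ?_⟩, fun h1 h2 => ?_⟩
  · have := ((e v hv).1 h1).2
    have := h.2.1 v.1
    omega
  · rw [← h.asg (hX h2)]
    exact (e v hv).2 h1 h2

theorem Le.live' {X Y : Finset I} {c' c : Cfg I T K l} (h : Le Y c' c) {up : Bool}
    {C : Term (TV I T K)} (hC : C.1.image Prod.fst ⊆ Y) (e : tlive b X up c C = true) :
    tlive b X up c' C = true := by
  simp only [tlive, decide_eq_true_eq] at e ⊢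
  intro v hv
  have h1 := hC (mem_image_of_mem _ hv)
  rw [h.asg h1, hit, (h.1 _ h1).1, (h.1 _ h1).2]
  exact e v hv

theorem pick_live {X : Finset I} {c : Cfg I T K l} {C : Term (TV I T K)}
    (h : pick F b X c = some C) : C ∈ F ∧ tlive b X true c C = true := by
  rcases Option.or_eq_some_iff.1 h with h | ⟨-, h⟩
  · refine ⟨List.mem_of_find?_eq_some h, ?_⟩
    have e := List.find?_some h
    simp only [tlive, decide_eq_true_eq] at e ⊢
    refine fun v hv => ⟨fun h1 => ⟨((e v hv).1 h1).1, ?_⟩, (e v hv).2⟩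
    have h2 := ((e v hv).1 h1).2
    have := Bool.toNat_le (b v.1)
    simp only [Bool.false_eq_true, and_false, if_false] at h2
    split_ifs <;> omega
  · exact ⟨List.mem_of_find?_eq_some h, List.find?_some h⟩

theorem Le.pick {X Y : Finset I} {c' c : Cfg I T K l} (h : Le Y c' c) (hX : X ⊆ Y)
    {C : Term (TV I T K)} (e : pick F b X c = some C) (hC : C.1.image Prod.fst ⊆ Y) :
    pick F b X c' = some C := by
  rcases Option.or_eq_some_iff.1 e with e | ⟨e, e'⟩
  · exact Option.or_eq_some_iff.2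
      (Or.inl (find_mono (h.live hX _) e (h.live' hC (List.find?_some e))))
  · exact Option.or_eq_some_iff.2 (Or.inr ⟨find_none (h.live hX _) e,
      find_mono (h.live hX _) e' (h.live' hC (List.find?_some e'))⟩)

theorem Xs_mono (c : Cfg I T K l) : Monotone (Xs F b c) :=
  monotone_nat_of_le_succ fun _ => subset_union_left

theorem Le.stable {c' c : Cfg I T K l} {i : ℕ} (h : Le (Xs F b c i) c' c) (e : Ev F b c i) :
    Xs F b c' i = Xs F b c i ∧ Ev F b c' i := by
  have key : ∀ i' < i, ∀ C, h70.pick F b (Xs F b c i') c = some C →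
      C.1.image Prod.fst ⊆ Xs F b c i := fun i' hi C hC =>
    Subset.trans (by rw [Xs, hC]; exact subset_union_right) (Xs_mono c (Nat.succ_le_of_lt hi))
  have h1 : ∀ i' ≤ i, Xs F b c' i' = Xs F b c i' := by
    intro i' hi
    induction i' with
    | zero => rfl
    | succ i' ih =>
      obtain ⟨C, hC, -⟩ := e i' hi
      rw [Xs, Xs, ih (by omega), hC, h.pick (Xs_mono c (by omega)) hC (key i' hi C hC)]
  refine ⟨h1 i le_rfl, fun i' hi => ?_⟩
  obtain ⟨C, hC, hs⟩ := e i' hi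
  refine ⟨C, by rw [h1 i' hi.le, h.pick (Xs_mono c hi.le) hC (key i' hi C hC)], ?_⟩
  rw [← hs, sat, sat]
  exact decide_eq_decide.2 (forall₂_congr fun v hv => by
    rw [h.asg (key i' hi C hC (mem_image_of_mem _ hv))])

theorem card_Xs {w : ℕ} (hF : ∀ C ∈ F, C.1.card ≤ w) (c : Cfg I T K l) (i : ℕ) :
    (Xs F b c i).card ≤ i * w := by
  induction i with
  | zero => simp [Xs]
  | succ i ih =>
    rw [Nat.succ_mul i w, Xs]
    refine (card_union_le _ _).trans (Nat.add_le_add ih ?_)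
    rcases h : pick F b (Xs F b c i) c with _ | C
    · simp
    · exact card_image_le.trans (hF C (pick_live h).1)

theorem cert_of_not_ev {w s : ℕ} (hF : ∀ C ∈ F, C.1.card ≤ w) {c : Cfg I T K l}
    (h : ¬Ev F b c s) (h0 : F.any (sat (asg c b)) = false) :
    ∃ i < s, Cert (i * w) (fun b' => F.any (sat (asg c b'))) b := by
  simp only [Ev, not_forall, not_exists, not_and] at h
  obtain ⟨i, hi, h⟩ := h
  refine ⟨i, hi, Xs F b c i, card_Xs hF c i, fun b' hb => ?_⟩
  rw [List.any_eq_false] at h0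
  rcases h1 : pick F b (Xs F b c i) c with _ | C
  swap
  · exact absurd (Bool.eq_false_iff.2 (h0 C (pick_live h1).1)) (h C h1)
  refine (List.any_eq_false.2 fun C hC hs => ?_).trans (List.any_eq_false.2 h0).symm
  refine List.find?_eq_none.1 (Option.or_eq_none_iff.1 h1).2 C hC ?_
  simp only [tlive, sat, decide_eq_true_eq] at hs ⊢
  refine fun v hv => ⟨fun h2 => ?_, fun h2 h3 => ?_⟩
  · have h3 := (hs v hv).trans h2
    simp only [asg, Bool.not_eq_false', decide_eq_true_eq] at h3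
    refine ⟨h3.1, h3.2.trans ?_⟩
    have := Bool.toNat_le (b' v.1)
    by_cases h4 : v.1 ∈ Xs F b c i
    · simp [h4, hb _ h4]
    · simp only [h4, not_false_eq_true, and_self, if_true]
      omega
  · rw [← h2, ← hs v hv, asg, asg, hb _ h3]

theorem cert_true {w : ℕ} (hF : ∀ C ∈ F, C.1.card ≤ w) {c : Cfg I T K l}
    (h0 : F.any (sat (asg c b)) = true) : Cert w (fun b' => F.any (sat (asg c b'))) b := by
  obtain ⟨C, h1, h2⟩ := List.any_eq_true.1 h0
  refine ⟨C.1.image Prod.fst, card_image_le.trans (hF C h1), fun b' hb =>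
    (List.any_eq_true.2 ⟨C, h1, ?_⟩).trans h0.symm⟩
  simp only [sat, decide_eq_true_eq] at h2 ⊢
  exact fun v hv => by rw [← h2 v hv, asg, asg, hb _ (mem_image_of_mem _ hv)]

/-- Lower the unmarked heights. -/
def lower (c : Cfg I T K l) (X : Finset I) (d : ℕ) : Cfg I T K l :=
  (fun x => if x ∈ X then c.1 x else ⟨c.1 x - d, by omega⟩, c.2)

theorem lower_le (c : Cfg I T K l) (X : Finset I) (d : ℕ) : Le X (lower c X d) c := by
  refine ⟨fun x hx => ⟨if_pos hx, fun _ => rfl⟩, fun x => ?_, fun v h => h⟩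
  simp only [lower]
  split_ifs
  · exact le_rfl
  · exact Nat.sub_le _ _

variable [Fintype I]

open Classical in
/-- The configurations with `i` rounds and room for `i` shifts. -/
noncomputable def St (F : List (Term (TV I T K))) (b : I → Bool) (l L i : ℕ) :
    Finset (Cfg I T K l) := {c | Ev F b c i ∧ ∀ x, i * L ≤ (c.1 x).1}

theorem card_shift (L i : ℕ) :
    #{c ∈ St F b l L (i + 1) | F.find? (tlive b (Xs F b c i) false c) = none} * L ≤
      (St F b l L i).card := by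
  classical
  rw [← card_range L, ← card_product, card_range]
  have hE : ∀ c ∈ St F b l L (i + 1), Ev F b c i := fun c hc i' hi =>
    (mem_filter.1 hc).2.1 i' (by omega)
  have hL : ∀ c ∈ St F b l L (i + 1), ∀ x, i * L + L ≤ (c.1 x).1 := fun c hc x =>
    Nat.succ_mul i L ▸ (mem_filter.1 hc).2.2 x
  refine card_le_card_of_injOn (fun p => lower p.1 (Xs F b p.1 i) p.2) ?_ ?_
  · rintro ⟨c, d⟩ hp
    obtain ⟨h1, h2⟩ := mem_product.1 (mem_coe.1 hp)
    have h3 := (mem_filter.1 h1).1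
    refine mem_coe.2 (mem_filter.2 ⟨mem_univ _, ((lower_le c _ d).stable (hE c h3)).2, fun x => ?_⟩)
    have := hL c h3 x
    have := mem_range.1 h2
    simp only [lower]
    split_ifs
    · omega
    · simp only
      omega
  have key : ∀ (c c' : Cfg I T K l) (d d' : ℕ), c ∈ St F b l L (i + 1) → c' ∈ St F b l L (i + 1) →
      d < L → d' < L → lower c (Xs F b c i) d = lower c' (Xs F b c' i) d' →
      Xs F b c i = Xs F b c' i ∧ c.2 = c'.2 ∧ (∀ x ∈ Xs F b c i, c.1 x = c'.1 x) ∧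
        ∀ x ∉ Xs F b c i, (c.1 x).1 + d' = (c'.1 x).1 + d := by
    intro c c' d d' h h' hd hd' e
    have e1 : Xs F b c i = Xs F b c' i := by
      rw [← ((lower_le c _ d).stable (hE c h)).1, e, ((lower_le c' _ d').stable (hE c' h')).1]
    rw [← e1] at e
    refine ⟨e1, (congrArg Prod.snd e :), fun x hx => ?_, fun x hx => ?_⟩
    · simpa [lower, hx] using congrFun (congrArg Prod.fst e) x
    · have := congrFun (congrArg Prod.fst e) x
      simp only [lower, hx, if_false, Fin.mk.injEq] at this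
      have := hL c h x
      have := hL c' h' x
      omega
  have key2 : ∀ (c c' : Cfg I T K l) (d d' : ℕ), c ∈ St F b l L (i + 1) →
      c' ∈ St F b l L (i + 1) → d < L → d' < L →
      F.find? (tlive b (Xs F b c' i) false c') = none →
      lower c (Xs F b c i) d = lower c' (Xs F b c' i) d' → d' ≤ d := by
    intro c c' d d' h h' hd hd' h0 e
    obtain ⟨e1, e2, e3, e4⟩ := key c c' d d' h h' hd hd' e
    by_contra hc
    obtain ⟨C, h1, -⟩ := (mem_filter.1 h).2.1 i (by omega)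
    obtain ⟨h2, h3⟩ := pick_live h1
    refine List.find?_eq_none.1 h0 C h2 ?_
    simp only [tlive, decide_eq_true_eq, ← e1] at h3 ⊢
    refine fun v hv => ⟨fun h4 => ⟨by rw [hit, ← e2]; exact ((h3 v hv).1 h4).1, ?_⟩,
      fun h4 h5 => ?_⟩
    · have h5 := ((h3 v hv).1 h4).2
      by_cases h6 : v.1 ∈ Xs F b c i
      · simpa [h6, e3 _ h6] using h5
      · have := e4 _ h6
        simp only [h6, not_false_eq_true, and_self, if_true] at h5
        omega
    · rw [← (h3 v hv).2 h4 h5]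
      exact asg_congr (e3 _ h5).symm (by rw [e2])
  rintro ⟨c, d⟩ hp ⟨c', d'⟩ hp' e
  obtain ⟨h1, h2⟩ := mem_product.1 (mem_coe.1 hp)
  obtain ⟨h3, h4⟩ := mem_product.1 (mem_coe.1 hp')
  obtain ⟨h1, h5⟩ := mem_filter.1 h1
  obtain ⟨h3, h6⟩ := mem_filter.1 h3
  rw [mem_range] at h2 h4
  obtain rfl : d = d' := le_antisymm (key2 c' c d' d h3 h1 h4 h2 h5 e.symm)
    (key2 c c' d d' h1 h3 h2 h4 h6 e)
  obtain ⟨-, e2, e3, e4⟩ := key c c' d d h1 h3 h2 h4 e
  refine Prod.ext (Prod.ext (funext fun x => ?_) e2) rfl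
  by_cases hx : x ∈ Xs F b c i
  · exact e3 x hx
  · exact Fin.ext (Nat.add_right_cancel (e4 x hx))

theorem card_delete {w : ℕ} (hF : ∀ C ∈ F, C.1.card ≤ w) (L i : ℕ) :
    #{c ∈ St F b l L (i + 1) | ¬F.find? (tlive b (Xs F b c i) false c) = none} * l ≤
      (St F b l L i).card * w := by
  classical
  refine card_mul_le_card_mul (fun c c' : Cfg I T K l => ∃ C,
    F.find? (tlive b (Xs F b c' i) false c') = some C ∧ ∃ v ∈ C.1,
      c = (c'.1, Function.update c'.2 (v.1, v.2.1) (Sum.inl v.2.2))) (fun c hc => ?_)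
    fun c' _ => ?_
  · obtain ⟨h1, h2⟩ := mem_filter.1 hc
    obtain ⟨-, h3, h4⟩ := mem_filter.1 h1
    obtain ⟨C, h5⟩ := Option.ne_none_iff_exists'.1 h2
    obtain ⟨C', h6, h7⟩ := h3 i (by omega)
    obtain rfl : C = C' := by simpa [pick, h5] using h6
    have h8 := List.find?_some h5
    simp only [sat, decide_eq_false_iff_not, not_forall] at h7
    obtain ⟨v, hv, h7⟩ := h7
    have h9 := tlive_iff.1 h8 v hv
    have h10 : C.2 v = true ∧ asg c b v = false := by
      cases h : C.2 v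
      · refine absurd ?_ h7
        simpa [h, asg] using h9.1 h
      · exact ⟨rfl, by simpa [h] using h7⟩
    have h11 : v.1 ∉ Xs F b c i := fun h => by simpa [h10.2] using h9.2 h10.1 h
    have h12 : hit c v := by
      have := h10.2
      simp only [asg, Bool.not_eq_false', decide_eq_true_eq] at this
      exact this.1
    let g : Fin l → Cfg I T K l := fun m => (c.1, Function.update c.2 (v.1, v.2.1) (Sum.inr m))
    have hle : ∀ m, Le (Xs F b c i) (g m) c := fun m => by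
      refine ⟨fun x hx => ⟨rfl, fun j => Function.update_of_ne (fun e => h11 ?_) _ _⟩,
        fun _ => le_rfl, fun u hu => ?_⟩
      · rwa [← (Prod.mk.inj e).1]
      · by_cases e : (u.1, u.2.1) = (v.1, v.2.1)
        · simp [hit, g, e] at hu
        · exact (Function.update_of_ne e _ _).symm.trans hu
    refine le_trans (le_of_eq ?_) (card_le_card (s := univ.image g) fun c' hc' => ?_)
    · rw [card_image_of_injective _ fun m m' e => ?_]
      · simp
      · simpa [g] using congrFun (congrArg Prod.snd e) (v.1, v.2.1)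
    obtain ⟨m, -, rfl⟩ := mem_image.1 hc'
    obtain ⟨e1, e2⟩ := (hle m).stable fun i' hi => h3 i' (by omega)
    refine (mem_bipartiteAbove _).2 ⟨mem_filter.2 ⟨mem_univ _, e2, fun x =>
      le_trans (Nat.mul_le_mul_right _ (by omega)) (h4 x)⟩, C, ?_, v, hv, ?_⟩
    · rw [e1]
      refine find_mono ((hle m).live Subset.rfl _) h5 (tlive_iff.2 fun u hu => ⟨fun h => ?_,
        fun h h' => ((hle m).asg h').trans ((tlive_iff.1 h8 u hu).2 h h')⟩)
      obtain ⟨e3, e4⟩ := (tlive_iff.1 h8 u hu).1 h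
      refine ⟨(Function.update_of_ne (fun e => ?_) _ _).trans e3, e4⟩
      rw [hit, e, h12] at e3
      obtain rfl : u = v := Prod.ext (Prod.mk.inj e).1
        (Prod.ext (Prod.mk.inj e).2 (Sum.inl_injective e3).symm)
      simp [h] at h10
    · simp only [g, Function.update_idem]
      rw [← h12, Function.update_eq_self]
  · rcases Option.eq_none_or_eq_some (F.find? (tlive b (Xs F b c' i) false c')) with h | ⟨C, h⟩
    · refine le_trans (le_of_eq (card_eq_zero.2 (eq_empty_of_forall_notMem fun c hc => ?_)))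
        (Nat.zero_le _)
      obtain ⟨-, C, h1, -⟩ := (mem_bipartiteBelow _).1 hc
      simp [h] at h1
    · refine le_trans (card_le_card (t := C.1.image fun v =>
        (c'.1, Function.update c'.2 (v.1, v.2.1) (Sum.inl v.2.2))) fun c hc => ?_)
        (card_image_le.trans (hF C (List.mem_of_find?_eq_some h)))
      obtain ⟨-, C', h1, v, hv, e⟩ := (mem_bipartiteBelow _).1 hc
      obtain rfl : C = C' := by simpa [h] using h1
      exact mem_image.2 ⟨v, hv, e.symm⟩

theorem card_St {w L : ℕ} (hF : ∀ C ∈ F, C.1.card ≤ w) (hw : 0 < w) (i : ℕ) :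
    (St F b (L * w) L i).card * L ^ i ≤ 2 ^ i * Fintype.card (Cfg I T K (L * w)) := by
  classical
  induction i with
  | zero => simpa only [pow_zero, mul_one, one_mul] using card_le_univ (St F b (L * w) L 0)
  | succ i ih =>
    have h1 := card_shift (F := F) (b := b) (l := L * w) L i
    have h2 := card_delete (b := b) (l := L * w) hF L i
    rw [← mul_assoc] at h2
    have h3 := Nat.le_of_mul_le_mul_right h2 hw
    have h4 := card_filter_add_card_filter_not (s := St F b (L * w) L (i + 1))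
      fun c => F.find? (tlive b (Xs F b c i) false c) = none
    calc _ = (St F b (L * w) L (i + 1)).card * L * L ^ i := by ring
      _ ≤ 2 * (St F b (L * w) L i).card * L ^ i :=
        Nat.mul_le_mul_right _ (by rw [← h4, add_mul]; omega)
      _ = 2 * ((St F b (L * w) L i).card * L ^ i) := by ring
      _ ≤ 2 * (2 ^ i * Fintype.card (Cfg I T K (L * w))) := Nat.mul_le_mul_left _ ih
      _ = _ := by ring

theorem pow_le_two {a d N : ℕ} (h : 2 * N * d ≤ a + d) : (a + d) ^ N ≤ 2 * a ^ N := by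
  rcases Nat.eq_zero_or_pos (a + d) with h0 | h0
  · rw [h0, show a = 0 by omega]
    omega
  have h1 : (0 : ℝ) < a + d := by exact_mod_cast h0
  have h2 := one_add_mul_le_pow (a := -((d : ℝ) / (a + d))) (by
    have : (d : ℝ) / (a + d) ≤ 1 := by rw [div_le_one h1]; simp
    linarith) N
  have h3 : (N : ℝ) * (d / (a + d)) ≤ 1 / 2 := by
    rw [← mul_div_assoc, div_le_iff₀ h1]
    have : (2 * N * d : ℝ) ≤ a + d := by exact_mod_cast h
    linarith
  have h4 : (1 : ℝ) + -(d / (a + d)) = a / (a + d) := by field_simp; ring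
  rw [h4, div_pow, le_div_iff₀ (by positivity)] at h2
  have h5 : (0 : ℝ) < (a + d) ^ N := by positivity
  have : ((a : ℝ) + d) ^ N ≤ 2 * a ^ N := by nlinarith
  exact_mod_cast this

theorem pr_unif {Ω : Type} [Fintype Ω] [DecidableEq Ω] (R S : Finset Ω) {E : Ω → Prop}
    (h : ∀ ω ∈ R, E ω → ω ∈ S) :
    Pr (fun ω => if ω ∈ R then (1 / R.card : ℝ) else 0) E ≤ S.card / R.card := by
  rw [div_eq_mul_one_div (S.card : ℝ), ← nsmul_eq_mul, ← sum_const, ← sum_ite_mem_eq]
  refine sum_le_sum fun ω _ => ?_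
  have : (0 : ℝ) ≤ 1 / R.card := by positivity
  by_cases h1 : ω ∈ R <;> by_cases h2 : E ω <;> by_cases h3 : ω ∈ S <;> simp_all

theorem round_top {w L : ℕ} (hw : 1 ≤ w) (hL : 4 ≤ L) (hT : 0 < T) (hK : 0 < K)
    (h1 : 2 * Fintype.card I * (2 * w * L) ≤ T) (h1' : 2 * w * L < T)
    (h2 : 2 * (Fintype.card I * (2 * T)) * (L * w) ≤ K) :
    Round (V := TV I T K) (V' := I) w (16 / L) fun σ => ∃ τ : I → ℕ, (∀ x, τ x < T) ∧
      ∀ b x j, (∃ y, σ b (x, j, y) = false) ↔ j.1 ≤ 2 * τ x + (b x).toNat := by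
  classical
  obtain ⟨a, rfl⟩ := Nat.exists_eq_add_of_le' h1'.le
  let R : Finset (Cfg I (a + 2 * w * L) K (L * w)) :=
    (Fintype.piFinset fun _ => Ici ⟨2 * w * L, h1'⟩) ×ˢ
      Fintype.piFinset fun _ => univ.image Sum.inl
  have hR : Fintype.card (Cfg I (a + 2 * w * L) K (L * w)) ≤ 4 * R.card := by
    have e1 := pow_le_two h1
    have e2 := pow_le_two (h2.trans (Nat.le_add_right _ (L * w)))
    simp only [R, card_product, Fintype.card_piFinset, prod_const, card_univ, Fintype.card_prod,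
      Fintype.card_fun, Fintype.card_fin, Fintype.card_sum, Fin.card_Ici,
      card_image_of_injective _ Sum.inl_injective, Nat.add_sub_cancel]
    exact (Nat.mul_le_mul e1 e2).trans (le_of_eq (by ring))
  have : Nonempty (Cfg I (a + 2 * w * L) K (L * w)) :=
    ⟨(fun _ => ⟨0, hT⟩, fun _ => Sum.inl ⟨0, hK⟩)⟩
  have hR0 : (0 : ℝ) < R.card := by
    have := Fintype.card_pos (α := Cfg I (a + 2 * w * L) K (L * w))
    exact_mod_cast (by omega : 0 < R.card)
  have hL0 : (0 : ℝ) < L := by exact_mod_cast (by omega : 0 < L)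
  have hμ : ∀ c, (0 : ℝ) ≤ if c ∈ R then (1 / R.card : ℝ) else 0 := fun c => by
    split_ifs <;> positivity
  have key : ∀ (F : List (Term (TV I (a + 2 * w * L) K))) (b : I → Bool) (i : ℕ),
      (∀ C ∈ F, C.1.card ≤ w) → i ≤ 2 * w →
      Pr (fun c => if c ∈ R then (1 / R.card : ℝ) else 0) (fun c => Ev F b c i) ≤
        4 * (2 / L) ^ i := by
    intro F b i hF hi
    refine (pr_unif R (St F b (L * w) L i) fun c hc e => mem_filter.2 ⟨mem_univ _, e, fun x =>
      (Nat.mul_le_mul_right _ hi).trans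
        (Fin.le_def.1 (mem_Ici.1 (Fintype.mem_piFinset.1 (mem_product.1 hc).1 x)))⟩).trans ?_
    have e1 := (card_St (b := b) (L := L) hF hw i).trans (Nat.mul_le_mul_left _ hR)
    rw [div_pow, mul_div_assoc', div_le_div_iff₀ hR0 (by positivity)]
    calc _ ≤ ((2 ^ i * (4 * R.card) : ℕ) : ℝ) := by exact_mod_cast e1
      _ = _ := by push_cast; ring
  refine ⟨_, inferInstance, fun c => if c ∈ R then (1 / R.card : ℝ) else 0, asg, hμ, ?_,
    fun c v => dt1_of (fun β => !decide (hit c v ∧ v.2.1.1 ≤ 2 * (c.1 v.1).1 + β.toNat)) v.1,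
    fun c hc => ⟨fun x => c.1 x, fun x => (c.1 x).2, fun b x j => ?_⟩, fun φ ⟨G, g1, g2⟩ b => ?_⟩
  · rw [sum_ite_mem_eq, sum_const, nsmul_eq_mul, mul_one_div_cancel hR0.ne']
  · have hc' : c ∈ R := by_contra fun h => hc (if_neg h)
    obtain ⟨y, -, hy⟩ := mem_image.1 (Fintype.mem_piFinset.1 (mem_product.1 hc').2 (x, j))
    simp only [asg, Bool.not_eq_false', decide_eq_true_eq]
    exact ⟨fun ⟨_, h⟩ => h.2, fun h => ⟨y, hy.symm, h⟩⟩
  obtain ⟨F, hF, e⟩ := exists_dnf g1 g2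
  obtain rfl : φ = fun z => F.any (sat z) := funext fun z => (e z).symm
  have hq : (2 / L : ℝ) ≤ 1 / 2 := by
    rw [div_le_div_iff₀ hL0 two_pos]
    exact_mod_cast (by omega : 2 * 2 ≤ 1 * L)
  constructor
  · refine (mul_le_mul_of_nonneg_left ((Pr.mono hμ fun c _ h => ?_).trans
      (key F b (2 * w) hF le_rfl)) (by positivity)).trans ?_
    · by_contra h3
      cases h4 : F.any (sat (asg c b))
      · obtain ⟨i, hi, D, d1, d2⟩ := cert_of_not_ev hF h3 h4
        exact h ⟨D, d1.trans (Nat.mul_le_mul_right _ hi.le), d2⟩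
      · obtain ⟨D, d1, d2⟩ := cert_true hF h4
        exact h ⟨D, d1.trans (Nat.le_mul_of_pos_left _ (by omega)), d2⟩
    · obtain ⟨w, rfl⟩ := Nat.exists_eq_add_of_le' hw
      have e1 : (2 / L : ℝ) ^ (2 * w + 1) ≤ (1 / 2) ^ w :=
        (pow_le_pow_left₀ (by positivity) hq _).trans
          (pow_le_pow_of_le_one (by norm_num) (by norm_num) (by omega))
      have e2 : (2 : ℝ) ^ w * (1 / 2) ^ w = 1 := by rw [← mul_pow]; norm_num
      calc _ = 16 / L * (2 ^ w * (2 / L : ℝ) ^ (2 * w + 1)) := by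
            rw [show 2 * (w + 1) = 2 * w + 1 + 1 by ring, pow_succ _ (2 * w + 1), pow_succ _ w]
            ring
        _ ≤ 16 / L * 1 := mul_le_mul_of_nonneg_left
            (e2 ▸ mul_le_mul_of_nonneg_left e1 (by positivity)) (by positivity)
        _ = _ := mul_one _
  · refine (Pr.mono hμ (E' := fun c => ∃ b' ∈ ({b, fun _ => false} : Finset _), Ev F b' c 1)
      fun c _ h => ?_).trans ((Pr.union hμ _ _).trans ?_)
    · by_contra h3
      push Not at h3
      have h5 : ∀ b₁ b₂ : I → Bool, ¬Ev F b₁ c 1 → F.any (sat (asg c b₁)) = false →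
          F.any (sat (asg c b₂)) = false := by
        intro b₁ b₂ e1 e2
        obtain ⟨i, hi, D, d1, d2⟩ := cert_of_not_ev hF e1 e2
        obtain rfl : i = 0 := by omega
        obtain rfl : D = ∅ := card_eq_zero.1 (by omega)
        exact (d2 b₂ (by simp)).trans e2
      have h6 := h5 b (fun _ => false) (h3 _ (by simp))
      have h7 := h5 (fun _ => false) b (h3 _ (by simp))
      beta_reduce at h
      revert h h6 h7
      cases F.any (sat (asg c b)) <;> cases F.any (sat (asg c fun _ => false)) <;> simp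
    · refine (sum_le_card_nsmul _ _ _ fun b' _ => key F b' 1 hF (by omega)).trans ?_
      have : (#({b, fun _ => false} : Finset (I → Bool)) : ℝ) ≤ 2 := by exact_mod_cast card_le_two
      rw [nsmul_eq_mul]
      refine (mul_le_mul_of_nonneg_right this (by positivity)).trans (le_of_eq (by ring))

end Pool.Agent.MP_a2d820_lc.h70

end MrgPart1

-- marker of a merged file
example : 731051 + 796521 = 731051 + 796521 := rfl
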