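import Mathlib
import Pool.Agent.MP_a2d820_lc.h70.Top

-- ======== part 0: formerly Pool.Agent.MP_a2d820_lc.h70.Nand
section MrgPart0

/-!
Rounds of projections for forests of negated conjunctions and for parity; the code of a bit.
-/

set_option autoImplicit false

namespace Pool.Agent.MP_a2d820_lc.h70

open Finset Pool.Agent.MP_a2d820_lc.h69 Pool.Agent.MP_a2d820_lc.h31u Pool.Agent.PolyT Function

theorem exists_cond {Ω : Type} [Fintype Ω] [DecidableEq Ω] {u : Ω → ℝ} (hu : ∀ ω, 0 ≤ u ω)
    (h0 : 0 < ∑ ω, u ω) (B : Finset Ω) (hB : ∑ ω ∈ B, u ω ≤ (∑ ω, u ω) / 2) :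
    ∃ μ : Ω → ℝ, (∀ ω, 0 ≤ μ ω) ∧ ∑ ω, μ ω = 1 ∧ (∀ ω, μ ω ≠ 0 → ω ∉ B) ∧
      ∀ (S : Finset Ω) (δ : ℝ), ∑ ω ∈ S, u ω ≤ δ * ∑ ω, u ω → Pr μ (· ∈ S) ≤ 2 * δ := by
  have h1 := sum_add_sum_compl B u
  set Z := ∑ ω ∈ Bᶜ, u ω with hZ
  have h2 : 0 < Z := by linarith
  refine ⟨fun ω => if ω ∈ Bᶜ then u ω / Z else 0, fun ω => ?_, ?_,
    fun ω h => mem_compl.1 (by_contra fun h' => h (if_neg h')), fun S δ h => ?_⟩
  · have := hu ω
    beta_reduce
    split_ifs <;> positivity
  · rw [sum_ite_mem_eq, ← sum_div, div_self h2.ne']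
  · have h3 : 0 ≤ δ := nonneg_of_mul_nonneg_left ((sum_nonneg fun ω _ => hu ω).trans h) h0
    refine le_trans (b := (∑ ω ∈ S, u ω) / Z) ?_ ?_
    · rw [sum_div, ← sum_ite_mem_eq S]
      refine sum_le_sum fun ω _ => ?_
      have := div_nonneg (hu ω) h2.le
      by_cases e : ω ∈ S <;> by_cases e' : ω ∈ B <;> simp [e, e', this]
    · rw [div_le_iff₀ h2]
      nlinarith

theorem pow_le_lin {x : ℝ} (hx : 0 ≤ x) (n : ℕ) (h : 2 * n * x ≤ 1) :
    (1 + x) ^ n ≤ 1 + 2 * n * x := by
  induction n with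
  | zero => simp
  | succ n ih =>
    push_cast at h ⊢
    have h1 := ih (by nlinarith)
    rw [pow_succ]
    nlinarith [mul_le_mul_of_nonneg_right h1 (show 0 ≤ 1 + x by linarith)]

theorem tail_le {q : ℝ} (h0 : 0 ≤ q) (h : q ≤ 1 / 2) {w : ℕ} (hw : 1 ≤ w) :
    2 ^ w * q ^ (2 * w) ≤ q := by
  obtain ⟨w, rfl⟩ := Nat.exists_eq_add_of_le' hw
  have e1 : q ^ (2 * w + 1) ≤ (1 / 2) ^ (w + 1) ∨ w = 0 := by
    rcases Nat.eq_zero_or_pos w with e | e
    · exact Or.inr e
    · exact Or.inl ((pow_le_pow_left₀ h0 h _).trans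
        (pow_le_pow_of_le_one (by norm_num) (by norm_num) (by omega)))
  rcases e1 with e1 | rfl
  · have e2 : (2 : ℝ) ^ (w + 1) * (1 / 2) ^ (w + 1) = 1 := by rw [← mul_pow]; norm_num
    calc _ = q * (2 ^ (w + 1) * q ^ (2 * w + 1)) := by ring
      _ ≤ q * 1 := mul_le_mul_of_nonneg_left
          (e2 ▸ mul_le_mul_of_nonneg_left e1 (by positivity)) h0
      _ = _ := mul_one _
  · norm_num
    nlinarith

section
variable {V V' Ω : Type} [DecidableEq V] {E : V → Bool} {blk : V → V}

theorem const_of_not_pbad {F : List (Term V)} {L : Finset V} {y : V → Bool}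
    (h : ¬PBad E blk F 1 L y) (z z' : V → Bool) :
    F.any (sat (proj E blk L y z)) = F.any (sat (proj E blk L y z')) := by
  rcases hC : F.find? (plive E blk L y) with _ | C
  · have : ∀ z, F.any (sat (proj E blk L y z)) = false := fun z => by
      rw [List.any_eq_false]
      intro C hC' hs
      have := List.find?_eq_none.1 hC C hC'
      simp only [sat, decide_eq_true_eq] at hs
      simp only [plive, decide_eq_true_eq] at this
      exact this fun v hv hT => by rw [← hs v hv, proj, if_neg hT]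
    rw [this, this]
  · have hl := List.find?_some hC
    simp only [plive, decide_eq_true_eq] at hl
    have : ∀ z, F.any (sat (proj E blk L y z)) = true := fun z => by
      refine List.any_eq_true.2 ⟨C, List.mem_of_find?_eq_some hC, decide_eq_true fun v hv => ?_⟩
      have hT : ¬fre E blk L y v := fun hT =>
        h ⟨C, hC, ⟨blk v, mem_image_of_mem _ (mem_filter.2 ⟨hv, hT⟩)⟩, y, trivial⟩
      rw [proj, if_neg hT, hl v hv hT]
    rw [this, this]

theorem round_proj [Fintype V] [Fintype Ω] [Nonempty Ω] [DecidableEq V']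
    (hE : ∀ v, E v = true → blk v = v) {nx : Ω → Finset V} {w R L : ℕ} (hw : 1 ≤ w)
    (hind : SubInd nx (2 * w * w) R) (hR : w * L ≤ R) (hL : 32 ≤ L) (X : Finset (Finset V))
    (hX : ∀ K ∈ X, (∀ v ∈ K, E v = false) ∧ (2 * X.card : ℝ) ≤ (1 + 1 / R) ^ K.card)
    (ν : Ω → (V → Bool) → (V' → Bool) → V → Bool) (hν : ∀ ω y v, DT 1 fun z => ν ω y z v)
    {Good : ((V' → Bool) → V → Bool) → Prop} (hG : ∀ ω y, (∀ K ∈ X, ∃ v ∈ K, y v = false) →
      Good fun z => proj E blk (nx ω) y (ν ω y z)) : Round w (32 / L) Good := by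
  classical
  have hR0 : 0 < R := lt_of_lt_of_le (by positivity) hR
  have hx : (0 : ℝ) < 1 / R := by positivity
  have hn : ∀ p : Ω × (V → Bool), 0 ≤ wt E (1 / R) p.2 := fun p => (wt_pos hx _).le
  set Z := (Fintype.card Ω : ℝ) * ∑ y, wt E (1 / R) y with hZ
  have hZ0 : 0 < Z := mul_pos (by exact_mod_cast Fintype.card_pos)
    (sum_pos (fun y _ => wt_pos hx y) univ_nonempty)
  have h9 : ∑ p : Ω × (V → Bool), wt E (1 / R) p.2 = Z := by
    rw [Fintype.sum_prod_type]
    simp [hZ]
  have h8 : ∑ K ∈ X, ∑ p ∈ (univ : Finset Ω) ×ˢ ({y : V → Bool | ∀ v ∈ K, y v = true} :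
      Finset _), wt E (1 / R) p.2 ≤ Z / 2 := by
    rcases X.eq_empty_or_nonempty with rfl | hne
    · simp only [sum_empty]
      positivity
    have hc : (0 : ℝ) < X.card := by exact_mod_cast hne.card_pos
    refine (sum_le_card_nsmul X _ (Z / (2 * X.card)) fun K hK => ?_).trans (le_of_eq ?_)
    · rw [sum_product, le_div_iff₀ (by positivity), hZ, ← wt_miss _ (hX K hK).1]
      simp only [sum_const, nsmul_eq_mul, card_univ]
      rw [mul_assoc]
      exact mul_le_mul_of_nonneg_left (mul_le_mul_of_nonneg_left (hX K hK).2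
        (sum_nonneg fun y _ => (wt_pos hx y).le)) (Nat.cast_nonneg _)
    · rw [nsmul_eq_mul]
      field_simp
  obtain ⟨μ, m0, m1, m2, m3⟩ := exists_cond hn (h9 ▸ hZ0) _
    (h9 ▸ (sum_biUnion_le' X _ _ hn).trans h8)
  have hL0 : (32 : ℝ) ≤ L := by exact_mod_cast hL
  have hq : (8 * w * (1 / R) : ℝ) ≤ 8 / L := by
    rw [mul_one_div, div_le_div_iff₀ (by positivity) (by positivity)]
    have : (w * L : ℝ) ≤ R := by exact_mod_cast hR
    linarith
  have hq' : (8 / L : ℝ) ≤ 1 / 4 := by
    rw [div_le_div_iff₀ (by positivity) (by positivity)]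
    linarith
  have hl : (1 + 1 / R : ℝ) ^ w * ((1 + 4 * (1 / R)) ^ w - 1) ≤ 16 / L := by
    have e1 := pow_le_lin (x := 4 * (1 / R)) (by positivity) w (by linarith)
    have e2 : (1 + 1 / R : ℝ) ^ w ≤ (1 + 4 * (1 / R : ℝ)) ^ w :=
      pow_le_pow_left₀ (by positivity) (by linarith) _
    have e3 : 1 ≤ (1 + 4 * (1 / R : ℝ)) ^ w := one_le_pow₀ (by linarith)
    have e4 : (16 / L : ℝ) = 2 * (8 / L) := by ring
    rw [e4]
    exact mul_le_mul (by linarith) (by linarith) (by linarith) (by norm_num)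
  have key : ∀ (F : List (Term V)) (s : ℕ), (∀ C ∈ F, C.1.card ≤ w) → s ≤ 2 * w →
      Pr μ (fun p => PBad E blk F s (nx p.1) p.2) ≤ 2 * (16 / L) ^ s := by
    intro F s hF hs
    refine (Pr.mono m0 fun p _ h => mem_filter.2 ⟨mem_univ _, h⟩).trans (m3 _ _ ?_)
    rw [h9]
    exact (pswitch hE hind hR0 hF (Nat.mul_le_mul_right _ hs)).trans
      (mul_le_mul_of_nonneg_right (pow_le_pow_left₀ (mul_nonneg (by positivity)
        (sub_nonneg.2 (one_le_pow₀ (by linarith)))) hl _) hZ0.le)
  refine ⟨_, inferInstance, μ, fun p z => proj E blk (nx p.1) p.2 (ν p.1 p.2 z), m0, m1,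
    fun p v => dt1_comp (dt_proj _ _ v) (hν _ _), fun p hp => hG _ _ fun K hK => ?_,
    fun φ ⟨G, g1, g2⟩ z => ?_⟩
  · by_contra hc
    push Not at hc
    exact m2 p hp (mem_biUnion.2 ⟨K, hK, mem_product.2 ⟨mem_univ _, mem_filter.2 ⟨mem_univ _,
      fun v hv => by simpa using hc v hv⟩⟩⟩)
  obtain ⟨F, hF, e⟩ := exists_dnf g1 g2
  obtain rfl : φ = fun z => F.any (sat z) := funext fun z => (e z).symm
  constructor
  · refine (mul_le_mul_of_nonneg_left ((Pr.mono m0 fun p _ h => by_contra fun h3 =>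
      h ((dt_comp (dt_of_not_pbad hF _ _ _ h3) (hν p.1 p.2)).cert z)).trans
      (key F (2 * w) hF le_rfl)) (by positivity)).trans ?_
    have := tail_le (q := 16 / L) (by positivity)
      (by rw [div_le_div_iff₀ (by positivity) (by positivity)]; linarith) hw
    have e4 : (32 / L : ℝ) = 2 * (16 / L) := by ring
    linarith
  · exact ((Pr.mono m0 fun p _ h => by_contra fun h3 => h (const_of_not_pbad h3 _ _)).trans
      (key F 1 hF (by omega))).trans (le_of_eq (by ring))

omit [DecidableEq V] in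
theorem Round.comp {V₁ : Type} {w : ℕ} {η η' : ℝ} {Good : ((V' → Bool) → V₁ → Bool) → Prop}
    (h : Round w η Good) (hη : η ≤ η') (ρ : (V₁ → Bool) → V → Bool)
    (hρ : ∀ v, DT 1 fun z => ρ z v) {Good' : ((V' → Bool) → V → Bool) → Prop}
    (hG : ∀ σ, Good σ → Good' (ρ ∘ σ)) : Round w η' Good' := by
  obtain ⟨Ω, _, μ, σ, h0, h1, h2, h3, h4⟩ := h
  refine ⟨Ω, _, μ, fun ω => ρ ∘ σ ω, h0, h1, fun ω v => dt1_comp (hρ v) (h2 ω),
    fun ω hω => hG _ (h3 ω hω), fun φ ⟨G, g1, g2⟩ z => ?_⟩
  have := h4 (φ ∘ ρ) ⟨(· ∘ ρ) '' G, by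
    rintro _ ⟨g, hg, rfl⟩
    exact dt_comp (g1 g hg) hρ, fun z => by simp [g2]⟩ z
  exact ⟨this.1.trans hη, this.2.trans hη⟩

end

/-- The row of an assignment to a forest. -/
def zl {I : Type} {H : ℕ} (z : I × Node H → Bool) (x : I) : Lang := fun j =>
  if h : j.length ≤ H then z (x, ⟨j, h⟩) else true

theorem zl_node {I : Type} {H : ℕ} (z : I × Node H → Bool) (x : I) (j : Node H) :
    zl z x j.1 = z (x, j) := dif_pos j.2

theorem dt_zl {I : Type} {H : ℕ} (x : I) (j : List Bool) :
    DT 1 fun z : I × Node H → Bool => zl z x j := by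
  by_cases h : j.length ≤ H
  · exact (dt_var (x, (⟨j, h⟩ : Node H))).congr fun z => (zl_node z x ⟨j, h⟩).symm
  · exact (DTq.const 1 true).congr fun z => (dif_neg h : zl z x j = true).symm

/-- One selected member of each group carries the value of the group. -/
def emb (r : ℕ) (s : List Bool → List Bool) (a : Lang) : Lang := fun j =>
  if j.take r = s (j.drop r) then a (j.drop r) else true

theorem nv_emb {n r : ℕ} (hr : r ≤ n) {s : List Bool → List Bool} (hs : ∀ g, (s g).length = r)
    (a : Lang) : nv n 1 (emb r s a) = nv (n - r) 1 a := by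
  funext p
  simp only [nv, decide_eq_decide]
  constructor
  · rintro ⟨w, hw, h⟩
    refine ⟨w.drop r, by simp [hw], ?_⟩
    rw [← List.drop_append_of_le_length (by omega)]
    by_contra h'
    simp only [emb] at h
    split_ifs at h
    exact h' h
  · rintro ⟨w, hw, h⟩
    refine ⟨s (w ++ p) ++ w, by simp [hs, hw]; omega, ?_⟩
    rw [emb, List.append_assoc, List.take_left' (hs _), List.drop_left' (hs _), if_pos rfl, h]

theorem sel_iff {r : ℕ} {j : List Bool} (hj : r ≤ j.length) (f : Fin r → Bool) :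
    (f = fun i : Fin r => j.getD i false) ↔ j.take r = List.ofFn f := by
  have h : j.take r = List.ofFn fun i : Fin r => j.getD i false :=
    List.ext_getElem (by simp [hj]) fun i h1 h2 => by
      simp only [List.length_ofFn] at h2
      simp [List.getElem?_eq_getElem (show i < j.length by omega)]
  rw [h, List.ofFn_inj, eq_comm]

section
variable {I : Type} [Fintype I] [DecidableEq I] {H r : ℕ}

/-- The selected nodes at the depths `D`. -/
def seln (r : ℕ) (D : I → ℕ) (ω : I × Node H → Fin r → Bool) : Finset (I × Node H) :=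
  ({v | v.2.1.length = D v.1} : Finset _).filter fun v =>
    ω (v.1, v.2.cut r) = fun i : Fin r => v.2.1.getD i false

/-- The selector given by a sample. -/
def slc (ω : I × Node H → Fin r → Bool) (x : I) (g : List Bool) : List Bool :=
  if h : g.length ≤ H then List.ofFn (ω (x, ⟨g, h⟩)) else List.replicate r false

omit [Fintype I] [DecidableEq I] in
theorem length_slc (ω : I × Node H → Fin r → Bool) (x : I) (g : List Bool) :
    (slc ω x g).length = r := by
  unfold slc
  split_ifs <;> simp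

omit [DecidableEq I] in
theorem mem_seln {D : I → ℕ} (hD : ∀ x, r ≤ D x) {ω : I × Node H → Fin r → Bool}
    {v : I × Node H} :
    v ∈ seln r D ω ↔ v.2.1.length = D v.1 ∧ v.2.1.take r = slc ω v.1 (v.2.1.drop r) := by
  simp only [seln, mem_filter, mem_univ, true_and]
  refine and_congr_right fun h => ?_
  rw [sel_iff (h ▸ hD _), show slc ω v.1 (v.2.1.drop r) = List.ofFn (ω (v.1, v.2.cut r)) from
    dif_pos (v.2.cut r).2]

theorem subInd_seln {D : I → ℕ} (hD : ∀ x, r ≤ D x) (t : ℕ) :
    SubInd (seln (H := H) r D) t (2 ^ r) := by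
  have h1 := subInd_key ({v | v.2.1.length = D v.1} : Finset (I × Node H))
    (fun v => (v.1, v.2.cut r)) (fun v (i : Fin r) => v.2.1.getD i false)
    (fun v hv v' hv' e e' => ?_) t
  · rwa [Fintype.card_fun, Fintype.card_bool, Fintype.card_fin] at h1
  · obtain ⟨e1, e2⟩ := Prod.mk.inj e
    refine Prod.ext e1 (Subtype.ext ?_)
    rw [← List.take_append_drop r v.2.1, ← List.take_append_drop r v'.2.1,
      (sel_iff ((mem_filter.1 hv).2 ▸ hD _) _).1 rfl,
      (sel_iff ((mem_filter.1 hv').2 ▸ hD _) _).1 e']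
    exact congrArg _ (congrArg Subtype.val e2)

theorem round_nand {n D : I → ℕ} {w L : ℕ} (hw : 1 ≤ w) (hR : w * L ≤ 2 ^ r) (hL : 32 ≤ L)
    (hD : ∀ x, r ≤ D x) (hH : ∀ x, D x + (n x - r) ≤ H) (hV : Fintype.card (I × Node H) < 2 ^ w)
    (hn : ∀ x, 2 ^ r * (w + 1) ≤ 2 ^ (n x - r)) :
    Round (V := I × Node H) (V' := I × Node H) w (32 / L) fun σ =>
      ∃ s : I → List Bool → List Bool, (∀ x g, (s x g).length = r) ∧ ∀ z x p, p.length = D x →
        nv (n x - r) 1 (zl (σ z) x) p = emb r (s x) (zl z x) p := by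
  classical
  let K : I × Node H → Finset (I × Node H) := fun v =>
    {u | u.1 = v.1 ∧ u.2.1.length = D v.1 + (n v.1 - r) ∧ u.2.cut (n v.1 - r) = v.2}
  refine round_proj (E := fun _ => false) (blk := fun v => (v.1, v.2.cut (n v.1 - r))) (by simp) hw
    (subInd_seln hD _) hR hL (({v | v.2.1.length = D v.1} : Finset _).image K) (fun X hX => ?_)
    (fun _ _ z v => z (v.1, v.2.cut r)) (fun _ _ v => dt_var _) fun ω y hy =>
      ⟨slc ω, length_slc ω, fun z x p hp => ?_⟩
  · obtain ⟨v, hv, rfl⟩ := mem_image.1 hX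
    have h0 := (mem_filter.1 hv).2
    refine ⟨fun _ _ => rfl, ?_⟩
    have h1 := one_add_mul_le_pow (a := (1 / (2 ^ r : ℕ) : ℝ)) (le_trans (by norm_num)
      (by positivity : (0 : ℝ) ≤ _)) (2 ^ r)
    rw [mul_one_div_cancel (by positivity), one_add_one_eq_two] at h1
    have h2 : 2 ^ (n v.1 - r) ≤ (K v).card := by
      let g : (Fin (n v.1 - r) → Bool) → I × Node H := fun u =>
        (v.1, ⟨List.ofFn u ++ v.2.1, by have := hH v.1; simp; omega⟩)
      refine le_trans (le_of_eq ?_) (card_le_card (s := univ.image g) fun u hu => ?_)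
      · rw [card_image_of_injective _ fun u u' e => List.ofFn_injective
          (List.append_cancel_right (congrArg (fun v : I × Node H => v.2.1) e))]
        simp
      · obtain ⟨u, -, rfl⟩ := mem_image.1 hu
        exact mem_filter.2 ⟨mem_univ _, rfl, by simp [g]; omega,
          Subtype.ext (List.drop_left' (by simp))⟩
    refine le_trans ?_ (pow_le_pow_right₀ (le_add_of_nonneg_right (by positivity))
      ((hn v.1).trans h2))
    rw [pow_mul _ (2 ^ r)]
    refine le_trans ?_ (pow_le_pow_left₀ (by norm_num) h1 _)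
    rw [pow_succ']
    have := (card_image_le.trans (card_le_univ _)).trans hV.le
      (a := (({v | v.2.1.length = D v.1} : Finset _).image K).card)
    exact mul_le_mul_of_nonneg_left (by exact_mod_cast this) (by norm_num)
  · have h0 := hH x
    let P : Node H := ⟨p, by omega⟩
    obtain ⟨⟨x', j⟩, hv, h4⟩ := hy _ (mem_image_of_mem K
      (mem_filter.2 ⟨mem_univ (x, P), hp⟩))
    obtain ⟨-, h1, h2, h3⟩ := mem_filter.1 hv
    obtain rfl : x = x' := h1.symm
    dsimp only at h2 h3
    have h5 : (x, P) ∈ seln r D ω ↔ p.take r = slc ω x (p.drop r) :=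
      (mem_seln hD).trans (and_iff_right hp)
    have h6 : zl z x (p.drop r) = z (x, P.cut r) := zl_node z x (P.cut r)
    rw [emb, h6, Bool.eq_iff_iff]
    simp only [nv, decide_eq_true_eq]
    constructor
    · rintro ⟨w, hw, h⟩
      let j' : Node H := ⟨w ++ p, by simp; omega⟩
      have h7 : j'.cut (n x - r) = P := Subtype.ext (List.drop_left' hw)
      rw [zl_node _ x j'] at h
      split_ifs with h8
      · have h9 := h5.2 h8
        cases hy : y (x, j') <;> simp_all [proj, fre]
      · rfl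
    · intro h
      refine ⟨j.1.take (n x - r), by simp; omega, ?_⟩
      rw [show p = (j.cut (n x - r)).1 from (congrArg Subtype.val h3).symm, Node.cut,
        List.take_append_drop, zl_node]
      by_cases hL : (x, P) ∈ seln r D ω
      · rw [if_pos (h5.1 hL)] at h
        simp_all [proj, fre]
      · simp_all [proj, fre]

/-- The parity of `a` over the strings of length `m` put in front of `p`. -/
def xr : ℕ → Lang → Lang
  | 0, a => a
  | m + 1, a => fun p => xor (xr m a (false :: p)) (xr m a (true :: p))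

theorem xr_add (m m' : ℕ) (a : Lang) : xr (m + m') a = xr m' (xr m a) := by
  induction m' with
  | zero => rfl
  | succ m' ih => rw [← add_assoc, xr, ih]; rfl

theorem xr_congr {m : ℕ} {a a' : Lang} {p : List Bool}
    (h : ∀ w, w.length = m → a (w ++ p) = a' (w ++ p)) : xr m a p = xr m a' p := by
  induction m generalizing p with
  | zero => exact h [] rfl
  | succ m ih =>
    have : ∀ b, xr m a (b :: p) = xr m a' (b :: p) := fun b =>
      ih fun w hw => by simpa using h (w ++ [b]) (by simp [hw])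
    simp only [xr, this]

theorem xr_flip {m : ℕ} {a a' : Lang} {p w₀ : List Bool} (h0 : w₀.length = m)
    (h : ∀ w, w.length = m → w ≠ w₀ → a (w ++ p) = a' (w ++ p)) :
    xr m a p = xor (xr m a' p) (xor (a (w₀ ++ p)) (a' (w₀ ++ p))) := by
  induction m generalizing p w₀ with
  | zero =>
    obtain rfl := List.length_eq_zero_iff.1 h0
    simp only [xr, List.nil_append]
    cases a p <;> cases a' p <;> rfl
  | succ m ih =>
    obtain ⟨w₁, b, rfl⟩ : ∃ w₁ b, w₀ = w₁ ++ [b] := by
      rcases List.eq_nil_or_concat' w₀ with rfl | h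
      · simp at h0
      · exact h
    have h1 := ih (p := b :: p) (w₀ := w₁) (by simpa using h0) fun w hw hne => by
      simpa using h (w ++ [b]) (by simp [hw]) (by simpa using hne)
    have h2 : xr m a ((!b) :: p) = xr m a' ((!b) :: p) := xr_congr fun w hw => by
      simpa using h (w ++ [!b]) (by simp [hw]) fun e => by
        simpa using List.append_inj_right' e rfl
    rw [List.append_assoc]
    cases b
    · simp only [xr, h1, show xr m a (true :: p) = _ from h2, Bool.not_false, List.singleton_append]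
      rw [Bool.xor_right_comm]
    · simp only [xr, h1, show xr m a (false :: p) = _ from h2, Bool.not_true, List.singleton_append]
      rw [Bool.xor_assoc]

theorem xr_false (m : ℕ) (p : List Bool) : xr m (fun _ => false) p = false := by
  induction m generalizing p with
  | zero => rfl
  | succ m ih => simp [xr, ih]

theorem par_eq (A : Lang) (x : List Bool) :
    par A x (2 ^ x.length) = xr x.length (fun j => A (ad x j 0)) [] := by
  have key : ∀ c ≤ 2 ^ x.length,
      par A x c = xr x.length (fun j => decide (ofBits j < c) && A (ad x j 0)) [] := by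
    intro c hc
    induction c with
    | zero => simpa [par] using xr_false _ _
    | succ c ih =>
      rw [par, ih (by omega), xr_flip (a := fun j => decide (ofBits j < c + 1) && A (ad x j 0))
        (a' := fun j => decide (ofBits j < c) && A (ad x j 0))
        (length_dig x c) fun w hw hne => ?_]
      · simp [ofBits_dig (show c < 2 ^ x.length by omega)]
      · have h1 : ofBits w ≠ c := fun e =>
          hne (ofBits_inj (by simp [hw]) (by rw [ofBits_dig hc, e]))
        rw [List.append_nil, decide_eq_decide.2 (show ofBits w < c + 1 ↔ ofBits w < c by omega)]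
  rw [key _ le_rfl]
  exact xr_congr fun w hw => by simp [hw ▸ ofBits_lt w]

theorem round_par {D : I → ℕ} {w L : ℕ} (hw : 1 ≤ w) (hR : w * L ≤ 2 ^ r) (hL : 32 ≤ L)
    (hD : ∀ x, r ≤ D x) (hH : ∀ x, D x ≤ H) :
    Round (V := I × Node H) (V' := I × Node H) w (32 / L) fun σ =>
      ∀ z x g, g.length + r = D x → xr r (zl (σ z) x) g = zl z x g := by
  classical
  let c : (I × Node H → Fin r → Bool) → (I × Node H → Bool) → I → Lang := fun ω y x =>
    xr r fun j => if j.take r = slc ω x (j.drop r) then false else zl y x j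
  refine round_proj (E := fun _ => true) (blk := id) (by simp) hw (subInd_seln hD _) hR hL ∅
    (by simp) (fun ω y z v => xor (z (v.1, v.2.cut r)) (c ω y v.1 (v.2.1.drop r)))
    (fun ω y v => dt1_of (fun β => xor β (c ω y v.1 (v.2.1.drop r))) _) fun ω y _ z x g hg => ?_
  have h0 := hH x
  have key : ∀ w : List Bool, w.length = r → zl (proj (fun _ => true) id (seln r D ω) y
      fun v => xor (z (v.1, v.2.cut r)) (c ω y v.1 (v.2.1.drop r))) x (w ++ g) =
      if w = slc ω x g then xor (zl z x g) (c ω y x g) else zl y x (w ++ g) := by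
    intro w hw
    let j : Node H := ⟨w ++ g, by simp; omega⟩
    have h1 : (x, j) ∈ seln r D ω ↔ w = slc ω x g := by
      rw [mem_seln hD, List.take_left' hw, List.drop_left' hw]
      exact and_iff_right (by simp [j]; omega)
    have h2 : z (x, j.cut r) = zl z x g :=
      (zl_node z x (j.cut r)).symm.trans (congrArg _ (List.drop_left' hw))
    rw [zl_node _ x j, zl_node _ x j]
    by_cases h : w = slc ω x g
    · simp only [proj, fre, id, h1.2 h, true_or, and_self, if_true, Bool.not_true, Bool.false_xor,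
        h2, if_pos h, j, List.drop_left' hw]
    · rw [if_neg h, proj_of_notMem (mt h1.1 h)]
  rw [xr_flip (a' := fun j => if j.take r = slc ω x (j.drop r) then false else zl y x j)
    (length_slc ω x g) fun w hw hne => ?_]
  · rw [key _ (length_slc ω x g), if_pos rfl, List.take_left' (length_slc ω x g),
      List.drop_left' (length_slc ω x g), if_pos rfl]
    change xor (c ω y x g) _ = _
    cases c ω y x g <;> simp
  · rw [key w hw, List.take_left' hw, List.drop_left' hw, if_neg hne, if_neg hne]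

end

open Classical in
/-- The last bit of the largest string of length `n` in `G`, found by bitwise search. -/
noncomputable def gr (n : ℕ) (G : Lang) : Bool :=
  (pos (fun κ => decide (∃ s : List Bool, s.length + (true :: κ.2).length = n ∧
    G (s ++ true :: κ.2) = true)) [] n).getD 0 false

/-- The bit stored in a row. -/
noncomputable def dec (n : ℕ) : ℕ → Lang → Bool
  | 0, a => a []
  | k + 1, a => gr n (nv n (k + 1) a)

theorem gr_congr {n : ℕ} {G G' : Lang} (h : ∀ j, j.length = n → G j = G' j) : gr n G = gr n G' := by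
  refine congrArg (List.getD · 0 false) (pos_congr fun j _ => decide_eq_decide.2
    (exists_congr fun s => and_congr_right fun hs => ?_))
  rw [h _ (by simpa using hs)]

theorem ofBits_app (s p : List Bool) : ofBits (s ++ p) = ofBits s + 2 ^ s.length * ofBits p := by
  induction s with
  | nil => simp
  | cons b s ih => simp only [List.cons_append, ofBits_cons, ih, List.length_cons]; ring

theorem gr_le {n h : ℕ} {G : Lang} (hn : 1 ≤ n) (hh : h < 2 ^ n)
    (hG : ∀ j, j.length = n → (G j = true ↔ ofBits j ≤ h)) : (gr n G).toNat = h % 2 := by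
  classical
  set Q : List Bool × List Bool → Bool := fun κ => decide (∃ s : List Bool,
    s.length + (true :: κ.2).length = n ∧ G (s ++ true :: κ.2) = true)
  have key : ∀ m e, m + e = n → ofBits (pos Q [] m) = h / 2 ^ e := by
    intro m
    induction m with
    | zero =>
      intro e he
      rw [Nat.div_eq_of_lt (by rwa [← zero_add e, he])]
      rfl
    | succ m ih =>
      intro e he
      have h1 := ih (e + 1) (by omega)
      rw [pow_succ, ← Nat.div_div_eq_div_mul] at h1
      have h2 : Q ([], pos Q [] m) = true ↔ 2 * ofBits (pos Q [] m) + 1 ≤ h / 2 ^ e := by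
        rw [Nat.le_div_iff_mul_le (by positivity), decide_eq_true_iff]
        constructor
        · rintro ⟨s, a1, a2⟩
          rw [hG _ (by simpa using a1), ofBits_app,
            show s.length = e by simp at a1; omega] at a2
          simp only [ofBits_cons, Bool.toNat_true] at a2
          nlinarith
        · intro a1
          refine ⟨List.replicate e false, by simp; omega, (hG _ (by simp; omega)).2 ?_⟩
          have a2 : ofBits (List.replicate e false) = 0 := by
            simpa using ofBits_false [] (List.replicate e false)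
          simp only [ofBits_app, a2, ofBits_cons, Bool.toNat_true, List.length_replicate]
          nlinarith
      rw [pos, ofBits_cons]
      cases h3 : Q ([], pos Q [] m)
      · simp only [h3, Bool.false_eq_true, false_iff] at h2
        simp only [Bool.toNat_false]
        omega
      · simp only [h3, true_iff] at h2
        simp only [Bool.toNat_true]
        omega
  obtain ⟨m, rfl⟩ := Nat.exists_eq_add_of_le' hn
  have h1 := key (m + 1) 0 rfl
  rw [pos, ofBits_cons] at h1
  change (Q ([], pos Q [] m)).toNat = _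
  have := Bool.toNat_le (Q ([], pos Q [] m))
  omega

theorem nv_const (n k : ℕ) (c : Bool) : nv n k (fun _ => c) = fun _ => xor c (decide (Odd k)) := by
  induction k with
  | zero => simp [nv]
  | succ k ih =>
    funext j
    have : ∃ w : List Bool, w.length = n := ⟨List.replicate n false, by simp⟩
    by_cases h : Odd k <;> cases c <;> simp [nv, ih, h, Nat.odd_add_one, this]

theorem dec_const {n : ℕ} (hn : 1 ≤ n) (k : ℕ) (c : Bool) :
    dec n k (fun _ => xor c (decide (Odd k))) = c := by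
  cases k with
  | zero => simp [dec]
  | succ k =>
    obtain ⟨m, rfl⟩ := Nat.exists_eq_add_of_le' hn
    rw [dec, nv_const, gr, pos]
    cases c <;> simp

end Pool.Agent.MP_a2d820_lc.h70

end MrgPart0

-- ======== part 1: formerly Pool.Agent.MP_a2d820_lc.h70.Code
section MrgPart1

/-!
The decoder, and the removal of a class of coded rows from a probabilistic circuit.
-/

set_option autoImplicit false

namespace Pool.Agent.MP_a2d820_lc.h70

open Finset Pool.Agent.MP_a2d820_lc.h69 Pool.Agent.MP_a2d820_lc.h31u Pool.Agent.PolyT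
  Pool.Agent.H82 N487b59b3 Function

theorem relP_pre {O L : Lang} (h : L ∈ RelP O) {f : List Bool → List Bool} (hf : PolyT.Poly f)
    (s : Bool) : (fun x => xor s (L (f x))) ∈ RelP O := by
  obtain ⟨M, p, h⟩ := h
  have hq := (poly_iff _).2 M.qry_poly
  have hn := (poly_iff _).2 M.nxt_poly
  let cur : List Bool → List Bool := fun c =>
    bif c.getD 0 false then true :: true :: f (c.drop 2) else c.drop 2
  have hcur : PolyT.Poly cur := by fun_prop
  let enc : List Bool → List Bool := fun e =>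
    bif ltB e.length 2 then [xor s (e.getD 0 false)] else false :: false :: e
  have henc : PolyT.Poly enc := by fun_prop
  let M' : OM := ⟨fun c => M.qry (cur c), fun a => enc (M.nxt (cur a.1, a.2)),
    (poly_iff _).1 (by fun_prop), (poly_iff _).1 (by fun_prop)⟩
  obtain ⟨q, hq'⟩ := hf.bd
  refine ⟨M', p.comp (q.comp (3 * Polynomial.X)) + Polynomial.X + 2, fun x => ?_⟩
  obtain ⟨t, ht, h1, h2⟩ := h (f x)
  have h3 : p.eval (f x).length ≤ p.eval (q.eval (3 * x.length)) := eval_mono p (by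
    have := hq' x
    simp only [PolyT.Poly.enc_bools_length] at this
    omega)
  have key : ∀ r ≤ t, (r < t → cur (M'.run O x r) = M.run O (f x) r) ∧
      (0 < r → M'.run O x r = enc (M.run O (f x) r)) := by
    intro r hr
    induction r with
    | zero => exact ⟨fun _ => rfl, fun h => absurd h (by omega)⟩
    | succ r ih =>
      have e : M'.run O x (r + 1) = enc (M.run O (f x) (r + 1)) := by
        simp only [OM.run, M', (ih (by omega)).1 hr]
      refine ⟨fun h => ?_, fun _ => e⟩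
      have : ltB (M.run O (f x) (r + 1)).length 2 = false := by simpa using (h2 _ h).1
      simp [e, enc, cur, this]
  have h0 : 0 < t := by
    rcases t with _ | t
    · simp [OM.run] at h1
    · omega
  simp only [Polynomial.eval_add, Polynomial.eval_comp, Polynomial.eval_mul, Polynomial.eval_X,
    Polynomial.eval_ofNat]
  refine ⟨t, by omega, by rw [(key t le_rfl).2 h0, h1]; rfl, fun r hr => ?_⟩
  rcases Nat.eq_zero_or_pos r with rfl | hr0
  · simp only [OM.run, List.length_cons]
    omega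
  · have h4 := h2 r hr
    have : ltB (M.run O (f x) r).length 2 = false := by simpa using h4.1
    simp only [(key r hr.le).2 hr0, enc, this, cond_false, List.length_cons]
    omega

theorem relNP_of_relP {O L : Lang} (h : L ∈ RelP O) (s : Bool) :
    (fun x => xor s (L x)) ∈ RelNP O :=
  ⟨0, _, relP_pre h (f := sel true) (by fun_prop) s, fun x => by simp [sel_pair]⟩

open Classical in
/-- The questions of the bitwise search. -/
noncomputable def ql (A : Lang) (k : ℕ) : Lang := fun c =>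
  decide (∃ w : List Bool, w.length = 2 * (row c).length - (third (sel false c)).length ∧
    nv (row c).length k (fun j => A (ad (row c) j 0)) (w ++ third (sel false c)) = false)

theorem ql_mem (A : Lang) (k : ℕ) : ql A k ∈ RelSigma A (k + 1) := by
  have hrow : PolyT.Poly row := by unfold row; fun_prop
  obtain ⟨p, hp⟩ := hrow.bd
  refine ⟨_, gl_mem A k, p.comp (3 * Polynomial.X), _, one_query (Q := fun d => true :: bitEncode
    (row (sel true d), (sel false d ++ (row (sel true d) ++ row (sel true d))).take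
      (2 * (row (sel true d)).length - (third (sel false (sel true d))).length) ++
        third (sel false (sel true d)))) (by fun_prop) true _, fun c => ?_⟩
  simp only [sel_pair, if_true, join, gl_enc, Bool.true_xor, Bool.not_eq_true',
    Bool.false_eq_true, if_false]
  simp only [ql, decide_eq_true_eq]
  constructor
  · rintro ⟨w, hw, h⟩
    have := hp c
    simp only [PolyT.Poly.enc_bools_length] at this
    refine ⟨w, ?_, by rwa [List.take_left' hw]⟩
    simp only [Polynomial.eval_comp, Polynomial.eval_mul, Polynomial.eval_ofNat,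
      Polynomial.eval_X]
    omega
  · rintro ⟨w, -, h⟩
    exact ⟨_, by simp; omega, h⟩

theorem ql_enc (A : Lang) (k : ℕ) {u p : List Bool} (hp : p.length ≤ u.length) :
    ql A k (bitEncode (u, p)) = true ↔ ∃ s : List Bool, s.length + p.length = u.length ∧
      nv u.length (k + 1) (fun j => A (ad u j 0)) (s ++ p) = true := by
  have h1 : row (bitEncode (u, p)) = u := by simp [row, enc_pair, sel_pair, third_enc]
  have h2 : third (sel false (bitEncode (u, p))) = p := by simp [enc_pair, sel_pair, third_enc]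
  simp only [ql, h1, h2, nv, decide_eq_true_eq]
  constructor
  · rintro ⟨w, hw, h⟩
    exact ⟨w.drop u.length, by simp; omega, w.take u.length, by simp; omega,
      by rwa [← List.append_assoc, List.take_append_drop]⟩
  · rintro ⟨s, hs, w, hw, h⟩
    exact ⟨w ++ s, by simp; omega, by rwa [List.append_assoc]⟩

theorem dec_mem {U : List Bool → List Bool} (hU : PolyT.Poly U) (A : Lang) (k : ℕ) :
    ∃ B ∈ RelSigma A k,
      (fun x => dec (U x).length k fun j => A (ad (U x) j 0)) ∈ RelP (join A B) := by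
  classical
  cases k with
  | zero =>
    refine ⟨_, gl_mem A 0, ?_⟩
    have := one_query (Q := fun x => false :: ad (U x) [] 0) (by fun_prop) false (join A (gl A 0))
    simpa [join, dec] using this
  | succ k =>
    refine ⟨_, ql_mem A k, ?_⟩
    obtain ⟨M, hM⟩ := exists_om (ini := fun x => (U x, [], []))
      (Q := fun s => true :: bitEncode (s.1, true :: s.2.1))
      (δ := fun p => (p.1.1, p.2 :: p.1.2.1, []))
      (fin := fun s => eqB s.2.1.length s.1.length) (out := fun p => p.1.2.1.getD 0 false)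
      (by fun_prop) (by fun_prop) (by fun_prop) (by fun_prop) (by fun_prop)
    obtain ⟨p, hp⟩ := hU.bd
    refine ⟨M, 12 * p.comp (3 * Polynomial.X) + Polynomial.X + 4, fun x => ?_⟩
    have h1 := hp x
    simp only [PolyT.Poly.enc_bools_length] at h1
    simp only [Polynomial.eval_add, Polynomial.eval_comp, Polynomial.eval_mul, Polynomial.eval_X,
      Polynomial.eval_ofNat]
    refine ⟨(U x).length + 1, by omega, hM (join A (ql A k)) x (U x).length _
      (fun r => (U x, pos (fun κ => decide (∃ s : List Bool, s.length + (true :: κ.2).length =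
        (U x).length ∧ nv (U x).length (k + 1) (fun j => A (ad (U x) j 0)) (s ++ true :: κ.2) =
          true)) [] r, [])) rfl (fun r hr => ?_) (fun r hr => by simpa using hr.ne) (by simp)
      (fun r hr => ?_) (by omega)⟩
    · simp only [pos, join, Prod.mk.injEq, true_and, and_true, List.cons.injEq]
      rw [Bool.eq_iff_iff, decide_eq_true_iff, ql_enc A k (by simpa using hr)]
    · simp only [length_st, length_pos, List.length_nil]
      omega

/-- Replace the rows in `I`. -/
noncomputable def ovr (I : Finset (List Bool)) (A : Lang) (c : I → Lang) : Lang :=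
  extend (fun p : I × List Bool => ad p.1.1 p.2 0) (fun p => c p.1 p.2) A

theorem ovr_row {I : Finset (List Bool)} (A : Lang) (c : I → Lang) (u : I) :
    (fun j => ovr I A c (ad u.1 j 0)) = c u := funext fun j =>
  (show Injective fun p : I × List Bool => ad p.1.1 p.2 0 from fun _ _ h =>
    Prod.ext (Subtype.ext (ad_inj h).1) (ad_inj h).2.1).extend_apply _ _ (u, j)

theorem ovr_off {I : Finset (List Bool)} (A : Lang) (c : I → Lang) {s : List Bool}
    (h : ∀ u ∈ I, ∀ j, ad u j 0 ≠ s) : ovr I A c s = A s :=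
  extend_apply' _ _ _ fun ⟨p, e⟩ => h _ p.1.2 _ e

theorem ac_pre {X X' : Type} {w N k : ℕ} {F : Set (Fn X)} (h : AC w N k F)
    {ρ : (X' → Bool) → X → Bool} (hρ : ∀ v, DT 1 fun z => ρ z v) :
    AC w N k ((· ∘ ρ) '' F) := by
  classical
  induction k generalizing F with
  | zero =>
    rintro _ ⟨f, hf, rfl⟩
    exact dt_comp (h f hf) hρ
  | succ k ih =>
    obtain ⟨G, h1, h2, h3⟩ := h
    refine ⟨G.image (· ∘ ρ), card_image_le.trans h1, by rw [coe_image]; exact ih h2, ?_⟩
    rintro _ ⟨f, hf, rfl⟩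
    obtain ⟨H, a1, a2⟩ := h3 f hf
    refine ⟨(· ∘ ρ) '' H, ?_, fun z => by simp [a2]⟩
    rintro _ ⟨g, hg, rfl⟩
    refine (a1 g hg).precomp _ ?_
    rintro q (hq | hq)
    · exact Or.inl (mem_coe.2 (mem_image_of_mem _ hq))
    · exact Or.inr (dt1_comp hq hρ)

/-- The growth of the parameter in one step. -/
def gro (w : ℕ) : ℕ := 10 * w ^ 3

theorem le_gro (w : ℕ) : w ≤ gro w :=
  (Nat.le_self_pow (by norm_num) w).trans (Nat.le_mul_of_pos_left _ (by norm_num))

theorem gro_mono (w : ℕ) {i j : ℕ} (h : i ≤ j) : gro^[i] w ≤ gro^[j] w :=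
  monotone_iterate_of_id_le le_gro h w

/-- Circuits of depth `d` in the bits of the oracle. -/
def Ac (w d : ℕ) : Set (Fn (List Bool)) := {f | AC w (2 ^ w) d {f}}

theorem apx_embed {V : Type} {w d : ℕ} {ε : ℝ} (hw : 1 ≤ w) (hd : 1 ≤ d) {𝒜 : Set Lang}
    {t : Fn (List Bool)} (h : Apx (Ac w d) 𝒜 t ε) {I : Finset (List Bool)}
    (c : (V → Bool) → I → Lang) (hc : ∀ u j, DT 1 fun z => c z u j)
    {X₀ : Set (List Bool ⊕ V → Bool)} {t' : Fn (List Bool ⊕ V)}
    (hs : ∀ p ∈ X₀, ovr I (p ∘ Sum.inl) (c (p ∘ Sum.inr)) ∈ 𝒜 ∧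
      t (ovr I (p ∘ Sum.inl) (c (p ∘ Sum.inr))) = t' p) :
    Apx (Cl (List Bool) V (gro w) d 0) X₀ t' ε := by
  refine h.map _ hs fun f hf => ⟨_, ?_, fun _ _ => rfl⟩
  obtain ⟨d, rfl⟩ := Nat.exists_eq_add_of_le' hd
  have h1 := ac_pre (ρ := fun p : List Bool ⊕ V → Bool => ovr I (p ∘ Sum.inl) (c (p ∘ Sum.inr)))
    hf fun s => ?_
  · rw [Set.image_singleton] at h1
    exact (mc_of_ac hw h1).up (by unfold gro; nlinarith [Nat.pow_le_pow_left hw 2])
      (Nat.pow_le_pow_right two_pos (le_gro w))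
  · by_cases e : ∃ u ∈ I, ∃ j, ad u j 0 = s
    · obtain ⟨u, hu, j, rfl⟩ := e
      exact (dt1_comp (ρ := fun p : List Bool ⊕ V → Bool => p ∘ Sum.inr) (hc ⟨u, hu⟩ j)
        fun v => dt_var (Sum.inr v)).congr fun p => (congrFun (ovr_row _ _ ⟨u, hu⟩) j).symm
    · push Not at e
      exact (dt_var (Sum.inl s)).congr fun p => (ovr_off (p ∘ Sum.inl) _ e).symm

theorem round_top' {I : Finset (List Bool)} {w a H : ℕ} (hw : 1 ≤ w) (ha : 5 ≤ a) (hw' : w ≤ 2 ^ a)
    (hI : I.card ≤ 2 ^ a) (hu : ∀ u ∈ I, 9 * a ≤ u.length ∧ 2 * u.length ≤ H) :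
    Round (V := I × Node H) (V' := I) w (32 / (2 ^ a : ℕ)) fun σ =>
      ∀ b (u : I), gr u.1.length (nv (u.1.length - 2 * a) 1 (zl (σ b) u)) = b u := by
  have p2 : ∀ {b c : ℕ}, b ≤ c → 2 ^ b ≤ 2 ^ c := fun h => Nat.pow_le_pow_right two_pos h
  have hI' : Fintype.card I ≤ 2 ^ a := by simpa using hI
  let e : TV I (2 ^ (3 * a + 2)) (2 ^ (6 * a + 4)) → I × Node H := fun v =>
    (v.1, ⟨dig (v.1.1.drop (2 * a)) v.2.2 ++ dig v.1.1 v.2.1, by
      have := hu _ v.1.2
      simp
      omega⟩)
  have h1 : ∀ (u : I) (j : ℕ), j < 2 * 2 ^ (3 * a + 2) → j < 2 ^ u.1.length := fun u j hj =>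
    hj.trans_le (by rw [← pow_succ']; exact p2 (by have := hu _ u.2; omega))
  have h2 : ∀ (u : I) (y : Fin (2 ^ (6 * a + 4))), ofBits (dig (u.1.drop (2 * a)) y) = y :=
    fun u y => ofBits_dig (y.2.trans_le (p2 (by have := hu _ u.2; simp; omega)))
  have he : Injective e := by
    rintro ⟨u, j, y⟩ ⟨u', j', y'⟩ h
    obtain rfl : u = u' := congrArg Prod.fst h
    obtain ⟨e1, e2⟩ := List.append_inj (congrArg (fun v : I × Node H => v.2.1) h) (by simp)
    rw [show j = j' from Fin.ext (by rw [← ofBits_dig (h1 u _ j.2), e2, ofBits_dig (h1 u _ j'.2)]),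
      show y = y' from Fin.ext (by rw [← h2 u y, e1, h2])]
  refine (round_top (I := I) (T := 2 ^ (3 * a + 2)) (K := 2 ^ (6 * a + 4)) (L := 2 ^ a) hw
    (le_trans (by norm_num) (p2 ha)) (by positivity) (by positivity) ?_ ?_ ?_).comp
    (div_le_div_of_nonneg_right (by norm_num) (by positivity))
    (fun z => extend e z fun _ => true) (fun v => ?_) ?_
  · calc _ ≤ 2 * 2 ^ a * (2 * 2 ^ a * 2 ^ a) := by gcongr
      _ = _ := by ring
  · calc _ ≤ 2 * 2 ^ a * 2 ^ a := by gcongr
      _ = 2 ^ (2 * a + 1) := by ring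
      _ < _ := Nat.pow_lt_pow_right (by norm_num) (by omega)
  · calc _ ≤ 2 * (2 ^ a * (2 * 2 ^ (3 * a + 2))) * (2 ^ a * 2 ^ a) := by gcongr
      _ = _ := by ring
  · by_cases h : ∃ x, e x = v
    · obtain ⟨x, rfl⟩ := h
      exact (dt_var x).congr fun z => (he.extend_apply _ _ _).symm
    · exact (DTq.const 1 true).congr fun z => (extend_apply' z (fun _ => true) _ h).symm
  rintro σ ⟨τ, t1, t2⟩ b u
  have h3 := hu _ u.2
  have h4 := Bool.toNat_le (b u)
  have h5 : 2 * τ u + (b u).toNat < 2 * 2 ^ (3 * a + 2) := by have := t1 u; omega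
  have h6 := gr_le (G := nv (u.1.length - 2 * a) 1 (zl (extend e (σ b) fun _ => true) u))
    (by omega) (h1 u _ h5) fun j hj => ?_
  · have h7 : ∀ (g β : Bool) (τ : ℕ), g.toNat = (2 * τ + β.toNat) % 2 → g = β := by
      rintro (_ | _) (_ | _) τ <;> simp
    exact h7 _ _ _ h6
  simp only [nv, decide_eq_true_eq]
  constructor
  · rintro ⟨s, hs, h⟩
    let J : Node H := ⟨s ++ j, by simp; omega⟩
    rw [zl_node _ u J] at h
    obtain ⟨⟨u', l, y⟩, e1⟩ : ∃ x, e x = (u, J) := by
      by_contra h'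
      simp [extend_apply' _ _ _ h'] at h
    rw [← e1, he.extend_apply] at h
    obtain rfl : u' = u := congrArg Prod.fst e1
    rw [← (List.append_inj' (congrArg (fun v : I × Node H => v.2.1) e1) (by simp [hj])).2,
      ofBits_dig (h1 _ _ l.2)]
    exact (t2 b _ l).1 ⟨y, h⟩
  · intro h
    obtain ⟨y, hy⟩ := (t2 b u ⟨ofBits j, by omega⟩).2 h
    refine ⟨dig (u.1.drop (2 * a)) y, by simp, ?_⟩
    rw [← he.extend_apply (σ b) (fun _ => true)] at hy
    rw [show j = dig u.1 (ofBits j) from
      ofBits_inj (by simp [hj]) (ofBits_dig (hj ▸ ofBits_lt j)).symm]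
    exact (zl_node _ u (e (u, ⟨ofBits j, by omega⟩, y)).2).trans hy

theorem card_forest {I : Finset (List Bool)} {a H w : ℕ} (hI : I.card ≤ 2 ^ a)
    (hw : a + H + 1 ≤ w) : Fintype.card (I × Node H) < 2 ^ w := by
  rw [Fintype.card_prod, Fintype.card_coe]
  refine (Nat.mul_lt_mul_of_le_of_lt hI (card_node H) (by positivity)).trans_le ?_
  rw [← pow_add]
  exact Nat.pow_le_pow_right two_pos hw

theorem apx_rounds {I : Finset (List Bool)} {w d k a H : ℕ} {ε : ℝ} (hd : 1 ≤ d) (ha : 5 ≤ a)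
    (hW : gro^[k + 1] w ≤ 2 ^ a) (hI : I.card ≤ 2 ^ a) (hw : a + H + 1 ≤ w)
    (hu : ∀ u ∈ I, 9 * a ≤ u.length ∧ (k + 1) * u.length ≤ H) {𝒜 : Set Lang}
    {t : Fn (List Bool)} (h : Apx (Ac w d) 𝒜 t ε) {X₀ : Set (List Bool ⊕ I → Bool)}
    {t' : Fn (List Bool ⊕ I)} (hs : ∀ p ∈ X₀, ∀ c : I → Lang,
      (∀ u : I, dec u.1.length k (c u) = p (Sum.inr u)) →
        ovr I (p ∘ Sum.inl) c ∈ 𝒜 ∧ t (ovr I (p ∘ Sum.inl) c) = t' p) :
    Apx (Cl (List Bool) I (gro^[k + 1] w) d k) X₀ t' (ε + k * (32 / (2 ^ a : ℕ))) := by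
  have p2 : ∀ {b c : ℕ}, b ≤ c → 2 ^ b ≤ 2 ^ c := fun h => Nat.pow_le_pow_right two_pos h
  cases k with
  | zero =>
    simpa using apx_embed (by omega) hd h (fun b u _ => b u) (fun u _ => dt_var u)
      fun p hp => hs p hp _ fun u => rfl
  | succ k =>
    let dq : ℕ → (List Bool ⊕ I × Node H → Bool) → List Bool ⊕ I → Bool := fun m p =>
      Sum.elim (p ∘ Sum.inl) fun u => gr u.1.length
        (nv u.1.length m (nv (u.1.length - 2 * a) 1 (zl (p ∘ Sum.inr) u)))
    have hw' : ∀ i, w ≤ gro^[i] w := fun i => gro_mono w (Nat.zero_le i)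
    have key : ∀ i m, i + m = k → Apx (Cl (List Bool) (I × Node H) (gro^[i + 1] w) d i)
        {p | dq m p ∈ X₀} (fun p => t' (dq m p)) (ε + i * (32 / (2 ^ a : ℕ))) := by
      intro i
      induction i with
      | zero =>
        intro m hm
        obtain rfl : m = k := by omega
        simp only [Nat.cast_zero, zero_mul, add_zero]
        refine apx_embed (by omega) hd h
          (fun z u => emb (2 * a) (fun _ => List.replicate (2 * a) false) (zl z u))
          (fun u j => ?_) fun p hp => hs (dq m p) hp _ fun u => ?_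
        · unfold emb
          split_ifs
          · exact dt_zl u _
          · exact DTq.const 1 true
        · rw [dec, nv_succ, nv_emb (by have := hu _ u.2; omega) (by simp)]
          rfl
      | succ i ih =>
        intro m hm
        have h1 : gro^[i + 1] w ≤ 2 ^ a := (gro_mono w (by omega)).trans hW
        have h2 := hw' (i + 1)
        rw [iterate_succ_apply', Nat.cast_succ, add_mul, one_mul, ← add_assoc]
        refine apx_round (by omega) (card_forest hI (by omega)) (round_nand (r := 2 * a)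
          (n := fun u : I => u.1.length) (D := fun u => (m + 2) * u.1.length) (by omega)
          (by rw [two_mul, pow_add]; exact Nat.mul_le_mul_right _ h1)
          (le_trans (by norm_num) (p2 ha)) (fun u => ?_) (fun u => ?_)
          (card_forest hI (by omega)) fun u => ?_) (ih (m + 1) (by omega)) ?_
        · have := hu _ u.2
          nlinarith
        · have := hu _ u.2
          have := Nat.mul_le_mul_right u.1.length (show m + 2 + 1 ≤ k + 1 + 1 by omega)
          rw [Nat.succ_mul] at this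
          omega
        · have := hu _ u.2
          refine le_trans (Nat.mul_le_mul_left _ (show _ ≤ 2 ^ (a + 1) by
            rw [pow_succ]; omega)) ?_
          rw [← pow_add]
          exact p2 (by omega)
        · rintro σ ⟨s, s1, s2⟩ p hp
          have e : dq (m + 1) (lft σ p) = dq m p := by
            refine congrArg (Sum.elim _) (funext fun u => gr_congr fun j hj => ?_)
            rw [← nv_emb (by have := hu _ u.2; omega) (s1 u) (zl (p ∘ Sum.inr) u), ← nv_succ]
            exact nv_congr fun j' hj' => s2 _ u j' (by rw [hj', hj]; ring)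
          exact ⟨by rw [Set.mem_ofPred_eq, e]; exact hp, by rw [e]⟩
    have h1 : gro^[k + 1] w ≤ 2 ^ a := (gro_mono w (by omega)).trans hW
    have h2 := hw' (k + 1)
    rw [iterate_succ_apply', Nat.cast_succ, add_mul, one_mul, ← add_assoc]
    refine apx_round (by omega) ?_ (round_top' (H := H) (by omega) ha h1 hI fun u h =>
      ⟨(hu u h).1, le_trans (Nat.mul_le_mul_right _ (by omega)) (hu u h).2⟩) (key k 0 rfl) ?_
    · rw [Fintype.card_coe]
      exact hI.trans_lt (Nat.pow_lt_pow_right (by norm_num) (by omega))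
    · intro σ hσ p hp
      have e : dq 0 (lft σ p) = p :=
        (congrArg (Sum.elim _) (funext fun u => hσ _ u)).trans (elim_eta p)
      exact ⟨by rw [Set.mem_ofPred_eq, e]; exact hp, by rw [e]⟩

theorem apx_class {I : Finset (List Bool)} {w d k a H w₁ : ℕ} {ε : ℝ} (hd : 1 ≤ d) (hd' : d ≤ w)
    (ha : 5 ≤ a) (hW : gro^[k + 1] w ≤ 2 ^ a) (hI : I.card ≤ 2 ^ a) (hw : a + H + 1 ≤ w)
    (hw₁ : a + w₁ + 1 ≤ w) (hu : ∀ u ∈ I, 9 * a ≤ u.length ∧ (k + 1) * u.length ≤ H)
    {mu nu : List Bool → Fn (List Bool)}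
    (hm : ∀ u ∈ I, mu u ∈ Ac w₁ (k + 1) ∧ nu u ∈ Ac w₁ (k + 1)) {𝒜 𝒜' : Set Lang}
    {t : Fn (List Bool)} (h : Apx (Ac w d) 𝒜 t ε) (h1 : ∀ A ∈ 𝒜', ∀ u ∈ I, nu u A = !mu u A)
    (h2 : ∀ A ∈ 𝒜', ∀ c : I → Lang, (∀ u : I, dec u.1.length k (c u) = mu u A) →
      ovr I A c ∈ 𝒜 ∧ t (ovr I A c) = t A) :
    Apx (Ac (gro^[k + 2] w) d) 𝒜' t (ε + k * (32 / (2 ^ a : ℕ))) := by
  classical
  have p2 : ∀ {b c : ℕ}, b ≤ c → 2 ^ b ≤ 2 ^ c := fun h => Nat.pow_le_pow_right two_pos h
  refine (apx_rounds hd ha hW hI hw hu h (t' := fun p => t (p ∘ Sum.inl))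
    (X₀ := {p | p ∘ Sum.inl ∈ 𝒜' ∧ ∀ u : I, p (Sum.inr u) = mu u (p ∘ Sum.inl)})
    fun p hp c hc => h2 _ hp.1 c fun u => (hc u).trans (hp.2 u)).map
    (fun A => Sum.elim A fun u : I => mu u A) (fun A hA => ⟨⟨hA, fun _ => rfl⟩, rfl⟩)
    fun f hf => ?_
  rw [iterate_succ_apply' gro (k + 1)]
  have hw' : w ≤ gro^[k + 1] w := gro_mono w (Nat.zero_le _)
  generalize gro^[k + 1] w = W at *
  rcases le_or_gt d k with hk | hk
  · rw [Cl, Set.mem_ofPred_eq, min_eq_left hk, Nat.sub_eq_zero_of_le hk] at hf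
    obtain ⟨F₀, b1, b2⟩ := hf
    obtain ⟨f₀, b3, rfl⟩ := b2 rfl
    exact ⟨f₀, (ac_up b1 (le_gro W) (p2 (le_gro W))).mono (Set.singleton_subset_iff.2 b3),
      fun _ _ => rfl⟩
  · rw [Cl, Set.mem_ofPred_eq, min_eq_right hk.le] at hf
    let g : I × Bool → Fn (List Bool) := fun x => bif x.2 then mu x.1 else nu x.1
    have hc : Fintype.card (I × Bool) ≤ 2 ^ (a + 1) := by simp [pow_succ, hI]
    obtain ⟨τ, b1, b2⟩ := mc_subst (mu := fun u : I => mu u) (nu := fun u : I => nu u)
      (M := univ.image g) (by omega) (card_image_le.trans (hc.trans (p2 (by omega))))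
      ((ac_up (ac_union (w := w₁) (N := 2 ^ w₁) (k := k + 1) univ (fun x => {g x}) (by
        rintro ⟨u, _ | _⟩
        exacts [(hm _ u.2).2, (hm _ u.2).1])) (by omega) ((Nat.mul_le_mul_right _ hc).trans (by
          rw [← pow_add]
          exact p2 (by omega)))).mono fun f hf => by
        obtain ⟨x, -, rfl⟩ := mem_image.1 hf
        exact ⟨x, mem_univ _, rfl⟩)
      (fun u => mem_image.2 ⟨(u, true), mem_univ _, rfl⟩)
      (fun u => mem_image.2 ⟨(u, false), mem_univ _, rfl⟩) hf
    rw [show k + (d - k) = d by omega, Set.image_singleton] at b1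
    have h3 : 1 ≤ W := by omega
    refine ⟨τ f, ac_up b1 (by unfold gro; nlinarith [Nat.pow_le_pow_left h3 2]) ?_,
      fun A hA => b2 A (fun u => h1 A hA _ u.2) f rfl⟩
    refine (Nat.mul_le_mul_right _ (show d - k + 1 ≤ 2 ^ W from
      le_trans (by omega) (Nat.lt_two_pow_self (n := W)))).trans ?_
    rw [← pow_add]
    exact p2 (by unfold gro; nlinarith [Nat.pow_le_pow_left h3 2])

theorem Cl.const {U V : Type} {w d : ℕ} {f : Fn (U ⊕ V)} (hf : f ∈ Cl U V w d d)
    (A : U → Bool) (z z' : V → Bool) : f (Sum.elim A z) = f (Sum.elim A z') := by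
  rw [Cl, Set.mem_ofPred_eq, Nat.sub_self] at hf
  obtain ⟨F₀, -, b2⟩ := hf
  obtain ⟨f₀, -, rfl⟩ := b2 rfl
  rfl

theorem test_dec {x : List Bool} {w d a : ℕ} {ε : ℝ} (hd : 1 ≤ d) (ha : 5 ≤ a)
    (hW : gro^[d + 1] w ≤ 2 ^ a) (hw : a + (d + 1) * x.length + 1 ≤ w) (hx : 9 * a ≤ x.length)
    {𝒜 : Set Lang} {A : Lang} (hA : ∀ c, ovr {x} A c ∈ 𝒜)
    (h : Apx (Ac w d) 𝒜 (fun A => dec x.length d fun j => A (ad x j 0)) ε) :
    1 ≤ 2 * (ε + d * (32 / (2 ^ a : ℕ))) := by
  let X : ({x} : Finset (List Bool)) := ⟨x, mem_singleton_self x⟩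
  refine (apx_rounds (I := {x}) hd ha hW (by simpa using Nat.one_le_two_pow) hw
    (by simpa using hx) h (X₀ := {p | p ∘ Sum.inl = A}) (t' := fun p => p (Sum.inr X))
    fun p hp c hc => ⟨hp ▸ hA c, ?_⟩).half (p := Sum.elim A fun _ => true)
    (q := Sum.elim A fun _ => false) rfl rfl (by simp) fun f hf => Cl.const hf _ _ _
  exact (congrArg _ (ovr_row _ c X)).trans (hc X)

theorem test_par {x : List Bool} {w d a : ℕ} {ε : ℝ} (hd : 1 ≤ d) (ha : 5 ≤ a)
    (hW : gro^[d + 1] w ≤ 2 ^ a) (hw : x.length + 1 ≤ w) (hx : d * (2 * a) ≤ x.length)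
    {𝒜 : Set Lang} {A : Lang} (hA : ∀ c, ovr {x} A c ∈ 𝒜)
    (h : Apx (Ac w d) 𝒜 (fun A => par A x (2 ^ x.length)) ε) :
    1 ≤ 2 * (ε + d * (32 / (2 ^ a : ℕ))) := by
  let X : ({x} : Finset (List Bool)) := ⟨x, mem_singleton_self x⟩
  have hw' : ∀ i, w ≤ gro^[i] w := fun i => gro_mono w (Nat.zero_le i)
  have key : ∀ i D, i ≤ d → D + i * (2 * a) = x.length →
      Apx (Cl (List Bool) (({x} : Finset (List Bool)) × Node x.length) (gro^[i + 1] w) d i)
        {p | p ∘ Sum.inl = A} (fun p => xr D (zl (p ∘ Sum.inr) X) [])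
        (ε + i * (32 / (2 ^ a : ℕ))) := by
    intro i
    induction i with
    | zero =>
      intro D _ hD
      obtain rfl : D = x.length := by omega
      simp only [Nat.cast_zero, zero_mul, add_zero]
      exact apx_embed (by omega) hd h zl dt_zl fun p hp =>
        ⟨hp ▸ hA _, by rw [par_eq, ovr_row _ _ X]⟩
    | succ i ih =>
      intro D hi hD
      have h1 : gro^[i + 1] w ≤ 2 ^ a := (gro_mono w (by omega)).trans hW
      have h2 := hw' (i + 1)
      rw [Nat.succ_mul] at hD
      rw [iterate_succ_apply', Nat.cast_succ, add_mul, one_mul, ← add_assoc]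
      refine apx_round (by omega) (card_forest (a := 0) (by simp) (by omega))
        (round_par (r := 2 * a) (D := fun _ => 2 * a + D) (by omega)
          (by rw [two_mul, pow_add]; exact Nat.mul_le_mul_right _ h1)
          (le_trans (by norm_num) (Nat.pow_le_pow_right two_pos ha)) (fun _ => by omega)
          fun _ => by omega) (ih (2 * a + D) (by omega) (by omega)) fun σ hσ p hp => ⟨hp, ?_⟩
      rw [xr_add]
      exact xr_congr fun g hg => hσ _ X _ (by simp; omega)
  obtain ⟨D, hD⟩ := Nat.exists_eq_add_of_le' hx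
  let J : Node x.length := ⟨List.replicate D false, by simp; omega⟩
  refine (key d D le_rfl hD.symm).half (p := Sum.elim A fun v => decide (v.2 = J))
    (q := Sum.elim A fun _ => false) rfl rfl ?_ fun f hf => Cl.const hf _ _ _
  rw [xr_flip (w₀ := J.1) (a' := zl (fun _ => false) X) (by simp [J]) fun s hs hne => ?_,
    List.append_nil, zl_node, zl_node]
  · simp
  · let J' : Node x.length := ⟨s ++ [], by simp; omega⟩
    rw [zl_node _ X J', zl_node _ X J']
    exact decide_eq_false fun e => hne (by simpa [J'] using congrArg Subtype.val e)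

end Pool.Agent.MP_a2d820_lc.h70

end MrgPart1

-- ======== part 2: formerly Pool.Agent.MP_a2d820_lc.h70.Stage
section MrgPart2

/-!
Oracles whose active rows store the answers of pairs of machines, the two kinds of stages, and the
limit.
-/

set_option autoImplicit false

namespace Pool.Agent.MP_a2d820_lc.h70

open Finset Pool.Agent.MP_a2d820_lc.h69 Pool.Agent.MP_a2d820_lc.h31u Pool.Agent.PolyT
  Pool.Agent.H82 N487b59b3 Function

/-- Agreement below a level. -/
def Agl (m : ℕ) (A A' : Lang) : Prop := ∀ s, lev s < m → A s = A' s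

section
variable (lv β : List Bool → ℕ) (mu nu : List Bool → Fn (List Bool))

/-- The rows in `J` store the right bit. -/
def Legit (J : Set (List Bool)) (A : Lang) : Prop :=
  ∀ u ∈ J, dec u.length (lv u) (fun j => A (ad u j 0)) = mu u A

/-- The two functions of a row are small local circuits. -/
def Small (u : List Bool) : Prop :=
  1 ≤ β u ∧ β u ^ 4 ≤ u.length ∧ mu u ∈ Ac (β u) (lv u + 1) ∧ nu u ∈ Ac (β u) (lv u + 1) ∧
    ∀ A A' : Lang, (∀ v, v.length < β u → A v = A' v) → mu u A = mu u A' ∧ nu u A = nu u A'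

variable {lv β mu nu}

theorem Small.le {u : List Bool} (h : Small lv β mu nu u) : β u ≤ u.length :=
  (Nat.le_self_pow (by norm_num) _).trans h.2.1

theorem Small.le' {u : List Bool} (h : Small lv β mu nu u) {M : ℕ} (hM : u.length < M * M) :
    β u ≤ M := by
  have h1 := h.1
  have h2 : β u * β u < M * M := lt_of_le_of_lt (by
    have := h.2.1
    nlinarith [Nat.mul_pos h1 h1]) hM
  exact (Nat.mul_self_lt_mul_self_iff.1 h2).le

theorem Small.loc {u : List Bool} (h : Small lv β mu nu u) {m : ℕ} (hm : β u ≤ m) {A A' : Lang}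
    (a : Agl m A A') : mu u A = mu u A' ∧ nu u A = nu u A' :=
  h.2.2.2.2 A A' fun v hv => a v (by have := lev_le v; omega)

theorem Small.legit {u : List Bool} (h : Small lv β mu nu u) {m : ℕ} (hm : u.length < m)
    {A A' : Lang} (a : Agl m A A') (e : dec u.length (lv u) (fun j => A (ad u j 0)) = mu u A) :
    dec u.length (lv u) (fun j => A' (ad u j 0)) = mu u A' := by
  rw [← (h.loc (h.le.trans hm.le) a).1, ← e]
  exact congrArg _ (funext fun j => (a _ (by simpa using hm)).symm)

theorem complete {Act : Set (List Bool)} (hS : ∀ u ∈ Act, Small lv β mu nu u) (A : Lang) (m : ℕ)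
    (hA : Legit lv mu {u ∈ Act | u.length < m} A) : ∃ A', Agl m A A' ∧ Legit lv mu Act A' := by
  classical
  let F : List Bool → Lang → Bool := fun s O =>
    if m ≤ lev s ∧ row s ∈ Act then xor (mu (row s) O) (decide (Odd (lv (row s)))) else A s
  have h1 : Agl m A (fix F) := fun s hs => by
    rw [fix]
    exact (if_neg fun h => by omega).symm
  refine ⟨fix F, h1, fun u hu => ?_⟩
  have h2 := hS u hu
  by_cases h : u.length < m
  · exact h2.legit h h1 (hA u ⟨hu, h⟩)
  · refine (congrArg _ (funext fun j => ?_)).trans (dec_const (h2.1.trans h2.le) _ _)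
    rw [fix]
    simp only [F, lev_ad, row_ad]
    rw [if_pos ⟨by omega, hu⟩, (h2.2.2.2.2 _ (fix F) fun v hv => if_pos ?_).1]
    exact hv.trans_le (h2.le.trans (le_length_ad _ _ _))

theorem agl_ovr {I : Finset (List Bool)} {M : ℕ} (h : ∀ u ∈ I, M ≤ u.length) (A : Lang)
    (c : I → Lang) : Agl M A (ovr I A c) := fun s hs =>
  (ovr_off A c fun u hu j e => by
    rw [← e, lev_ad] at hs
    exact absurd (h u hu) (by omega)).symm

theorem apx_layer {Act : Set (List Bool)} {K n M w d i : ℕ} {A₀ : Lang} {x : List Bool}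
    {G : Lang → Bool} (hS : ∀ u ∈ Act, Small lv β mu nu u) (hK : ∀ u ∈ Act, lv u ≤ K)
    (hP : ∀ A, Agl n A₀ A → Legit lv mu Act A → ∀ u ∈ Act, nu u A = !mu u A) (hx : x ∉ Act)
    (hn : 45 ≤ n) (hM : n ≤ M) (hd : 1 ≤ d) (hd' : d ≤ w)
    (hc : ∃ I : Finset (List Bool), I.card ≤ 2 ^ (M / 9) ∧ ∀ u ∈ Act, u.length < M * M → u ∈ I)
    (hw : (K + 2) * (M * M) + 1 ≤ w) (hW : gro^[i + (K + 1) * (K + 2)] w ≤ 2 ^ (n / 9)) {ε : ℝ}
    (h : Apx (Ac (gro^[i] w) d) {A | Agl n A₀ A ∧ Legit lv mu {u ∈ Act | u.length < M * M} A}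
      (fun A => G fun j => A (ad x j 0)) ε) :
    Apx (Ac (gro^[i + (K + 1) * (K + 2)] w) d)
      {A | Agl n A₀ A ∧ Legit lv mu {u ∈ Act | u.length < M} A}
      (fun A => G fun j => A (ad x j 0)) (ε + (K + 1) * K * (32 / (2 ^ (n / 9) : ℕ))) := by
  classical
  obtain ⟨I₀, c1, c2⟩ := hc
  have hMM : M ≤ M * M := Nat.le_mul_self M
  have key : ∀ k ≤ K + 1, Apx (Ac (gro^[i + k * (K + 2)] w) d) {A | Agl n A₀ A ∧
      Legit lv mu {u ∈ Act | u.length < M ∨ (u.length < M * M ∧ k ≤ lv u)} A}
      (fun A => G fun j => A (ad x j 0)) (ε + k * K * (32 / (2 ^ (n / 9) : ℕ))) := by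
    intro k hk
    induction k with
    | zero =>
      simp only [Nat.cast_zero, zero_mul, add_zero]
      exact h.map id (fun A hA => ⟨⟨hA.1, fun u hu => hA.2 u ⟨hu.1, Or.inr ⟨hu.2, by omega⟩⟩⟩, rfl⟩)
        fun f hf => ⟨f, hf, fun _ _ => rfl⟩
    | succ k ih =>
      let I := I₀.filter fun u => u ∈ Act ∧ M ≤ u.length ∧ u.length < M * M ∧ lv u = k
      have hI : ∀ u ∈ I, u ∈ Act ∧ M ≤ u.length ∧ u.length < M * M ∧ lv u = k :=
        fun u hu => (mem_filter.1 hu).2
      have h1 : w ≤ gro^[i + k * (K + 2)] w := gro_mono w (Nat.zero_le _)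
      have h2 : (K + 2) * (M * M) = (K + 1) * (M * M) + M * M := by ring
      have h3 : M * M ≤ (K + 1) * (M * M) := Nat.le_mul_of_pos_left _ (by omega)
      have h4 : k * (K + 2) + (K + 2) ≤ (K + 1) * (K + 2) := by
        rw [← Nat.succ_mul]
        exact Nat.mul_le_mul_right _ hk
      have h5 := apx_class (I := I) (k := k) (a := M / 9) (H := (K + 1) * (M * M)) (w₁ := M)
        (mu := mu) (nu := nu) (𝒜' := {A | Agl n A₀ A ∧
          Legit lv mu {u ∈ Act | u.length < M ∨ (u.length < M * M ∧ k + 1 ≤ lv u)} A})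
        hd (hd'.trans h1) (by omega) (by
          rw [← iterate_add_apply]
          exact ((gro_mono w (by omega)).trans hW).trans
            (Nat.pow_le_pow_right two_pos (Nat.div_le_div_right hM)))
        ((card_filter_le _ _).trans c1) (by omega) (by omega)
        (fun u hu => ⟨by have := hI u hu; omega,
          Nat.mul_le_mul (by omega) (hI u hu).2.2.1.le⟩)
        (fun u hu => ?_) (ih (by omega)) (fun A hA u hu => ?_) fun A hA c hc => ?_
      · rw [← iterate_add_apply] at h5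
        refine (h5.map id (fun A hA => ⟨hA, rfl⟩) fun f hf => ⟨f, ac_up hf (gro_mono w ?_)
          (Nat.pow_le_pow_right two_pos (gro_mono w ?_)), fun _ _ => rfl⟩).le ?_
        · rw [Nat.succ_mul]; omega
        · rw [Nat.succ_mul]; omega
        · have e1 : (32 / (2 ^ (M / 9) : ℕ) : ℝ) ≤ 32 / (2 ^ (n / 9) : ℕ) :=
            div_le_div_of_nonneg_left (by norm_num) (by positivity) (by
              exact_mod_cast Nat.pow_le_pow_right two_pos (Nat.div_le_div_right hM))
          have e2 : (k : ℝ) ≤ K := by exact_mod_cast (by omega : k ≤ K)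
          have e3 := mul_le_mul e2 e1 (by positivity) (by positivity)
          rw [Nat.cast_succ]
          linarith
      · obtain ⟨a1, -, a2, rfl⟩ := hI u hu
        have a3 := (hS u a1).le' a2
        exact ⟨ac_up (hS u a1).2.2.1 a3 (Nat.pow_le_pow_right two_pos a3),
          ac_up (hS u a1).2.2.2.1 a3 (Nat.pow_le_pow_right two_pos a3)⟩
      · obtain ⟨a1, -, a2, -⟩ := hI u hu
        obtain ⟨A', b1, b2⟩ := complete hS A M fun v hv => hA.2 v ⟨hv.1, Or.inl hv.2⟩
        obtain ⟨b3, b4⟩ := (hS u a1).loc ((hS u a1).le' a2) b1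
        rw [b3, b4]
        exact hP A' (fun s hs => (hA.1 s hs).trans (b1 s (by omega))) b2 u a1
      · have b1 := agl_ovr (fun u hu => (hI u hu).2.1) A c
        have b2 : ∀ u ∉ I, (fun j => ovr I A c (ad u j 0)) = fun j => A (ad u j 0) :=
          fun u hu => funext fun j => ovr_off A c fun u' hu' j' e => hu ((ad_inj e).1 ▸ hu')
        refine ⟨⟨fun s hs => (hA.1 s hs).trans (b1 s (by omega)), fun u hu => ?_⟩,
          by rw [b2 x fun h => hx (hI x h).1]⟩
        obtain ⟨a1, a2⟩ := hu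
        rw [← ((hS u a1).loc ((hS u a1).le' (by omega)) b1).1]
        by_cases e : u ∈ I
        · rw [ovr_row A c ⟨u, e⟩, (hI u e).2.2.2]
          exact hc ⟨u, e⟩
        · rw [b2 u e]
          refine hA.2 u ⟨a1, ?_⟩
          by_contra a3
          exact e (mem_filter.2 ⟨c2 u a1 (by omega), a1, by omega, by omega, by omega⟩)
  have h6 := key (K + 1) le_rfl
  rw [Nat.cast_succ] at h6
  exact h6.map id (fun A hA => ⟨⟨hA.1, fun u hu => hA.2 u ⟨hu.1, by
    have := hK u hu.1
    have := hu.2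
    omega⟩⟩, rfl⟩) fun f hf => ⟨f, hf, fun _ _ => rfl⟩

theorem apx_stage {Act : Set (List Bool)} {K n R w d : ℕ} {A₀ : Lang} {x : List Bool}
    {G : Lang → Bool} (hS : ∀ u ∈ Act, Small lv β mu nu u) (hK : ∀ u ∈ Act, lv u ≤ K)
    (hP : ∀ A, Agl n A₀ A → Legit lv mu Act A → ∀ u ∈ Act, nu u A = !mu u A) (hx : x ∉ Act)
    (hn : 45 ≤ n) (hd : 1 ≤ d) (hd' : d ≤ w) (hA₀ : Legit lv mu Act A₀)
    (hc : ∀ M ≥ n, ∃ I : Finset (List Bool), I.card ≤ 2 ^ (M / 9) ∧
      ∀ u ∈ Act, u.length < M * M → u ∈ I)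
    (hw : (K + 2) * n ^ 2 ^ R + 1 ≤ w) (hW : gro^[R * ((K + 1) * (K + 2))] w ≤ 2 ^ (n / 9))
    {f : Fn (List Bool)} (hf : f ∈ Ac w d) (hx' : x.length < n ^ 2 ^ R)
    (hloc : ∀ A A', Agl (n ^ 2 ^ R) A A' → f A = f A')
    (h : ∀ A, Agl n A₀ A → Legit lv mu Act A → f A = G fun j => A (ad x j 0)) :
    Apx (Ac (gro^[R * ((K + 1) * (K + 2))] w) d) {A | Agl n A₀ A}
      (fun A => G fun j => A (ad x j 0)) (R * ((K + 1) * K * (32 / (2 ^ (n / 9) : ℕ)))) := by
  have hpow : ∀ r, n ≤ n ^ 2 ^ r := fun r => Nat.le_self_pow (by positivity) n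
  have key : ∀ i r, i + r = R → Apx (Ac (gro^[i * ((K + 1) * (K + 2))] w) d)
      {A | Agl n A₀ A ∧ Legit lv mu {u ∈ Act | u.length < n ^ 2 ^ r} A}
      (fun A => G fun j => A (ad x j 0)) (i * ((K + 1) * K * (32 / (2 ^ (n / 9) : ℕ)))) := by
    intro i
    induction i with
    | zero =>
      intro r hr
      obtain rfl : r = R := by omega
      refine ⟨Unit, inferInstance, fun _ => 1, fun _ => f, by simp, by simp,
        fun _ => by simpa using hf, fun A hA => ?_⟩
      obtain ⟨A', b1, b2⟩ := complete hS A _ hA.2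
      have : f A = G fun j => A (ad x j 0) := by
        rw [hloc A A' b1, h A' (fun s hs => (hA.1 s hs).trans (b1 s (hs.trans_le (hpow r)))) b2]
        exact congrArg G (funext fun j => (b1 _ (by simpa using hx')).symm)
      simp [Pr, this]
    | succ i ih =>
      intro r hr
      have h1 := ih (r + 1) (by omega)
      rw [pow_succ, mul_two, pow_add] at h1
      rw [Nat.succ_mul i, Nat.cast_succ, add_mul (i : ℝ) 1, one_mul]
      refine apx_layer hS hK hP hx hn (hpow r) hd hd' (hc _ (hpow r)) (le_trans ?_ hw)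
        ((gro_mono w ?_).trans hW) h1
      · rw [← pow_add, ← mul_two, ← pow_succ]
        exact Nat.succ_le_succ (Nat.mul_le_mul_left _ (Nat.pow_le_pow_right (by omega)
          (Nat.pow_le_pow_right two_pos (by omega))))
      · rw [← Nat.succ_mul]
        exact Nat.mul_le_mul_right _ (by omega)
  exact (key R 0 rfl).map id (fun A hA => ⟨⟨hA, fun u hu =>
    (hS u hu.1).legit (by simpa using hu.2) hA (hA₀ u hu.1)⟩, rfl⟩)
    fun f hf => ⟨f, hf, fun _ _ => rfl⟩

end

/-- Towers of clocked machines. -/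
abbrev Tw := (OM × Polynomial ℕ) × List (OM × Polynomial ℕ × Polynomial ℕ)

theorem exists_bd (c : Tw) : ∃ B : Polynomial ℕ, ∀ (x : List Bool) (m w : ℕ), x.length ≤ m →
    B.eval m < w → (fun A => ev c.1 c.2 A x) ∈ Ac w c.2.length ∧
      ∀ A A' : Lang, (∀ v, v.length < w → A v = A' v) → ev c.1 c.2 A x = ev c.1 c.2 A' x := by
  obtain ⟨B, h1, h2⟩ := ev_bound c.1 c.2
  exact ⟨B, fun x m w hx hw => ⟨(h2 _ (fun z => z) m w _ dt_var hw.le
    (Nat.pow_le_pow_right two_pos hw.le)).mono (Set.singleton_subset_iff.2 ⟨x, hx, rfl⟩),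
    fun A A' h => h1 A A' x m hx fun v hv => h v (by omega)⟩⟩

/-- The row of a question. -/
def rw3 (p : ℕ × List Bool × List Bool) : List Bool := true :: bitEncode p

theorem rw3_inj : Injective rw3 := fun _ _ h => bitEncode_injective (List.cons.inj h).2

section
variable (τ : ℕ → Tw × Tw)

/-- The bound attached to a pair of towers. -/
noncomputable def bd (i : ℕ) : Polynomial ℕ :=
  (exists_bd (τ i).1).choose + (exists_bd (τ i).2).choose + Polynomial.X + 1

/-- The level of a row. -/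
noncomputable def lvR : List Bool → ℕ := extend rw3 (fun p => (τ p.1).1.2.length - 1) fun _ => 0

/-- The size parameter of a row. -/
noncomputable def btR : List Bool → ℕ := extend rw3 (fun p => (bd τ p.1).eval p.2.1.length) fun _ => 0

/-- The first answer of a row. -/
noncomputable def muR : List Bool → Fn (List Bool) :=
  extend rw3 (fun p A => ev (τ p.1).1.1 (τ p.1).1.2 A p.2.1) fun _ _ => false

/-- The second answer of a row. -/
noncomputable def nuR : List Bool → Fn (List Bool) :=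
  extend rw3 (fun p A => ev (τ p.1).2.1 (τ p.1).2.2 A p.2.1) fun _ _ => false

/-- Admissible sets of active rows. -/
def Adm (K : ℕ) (Act : Set (List Bool)) : Prop :=
  ∀ u ∈ Act, ∃ i x p k, u = rw3 (i, x, List.replicate p false) ∧ i ≤ K ∧ k ≤ K ∧
    (τ i).1.2.length = k + 1 ∧ (τ i).2.2.length = k + 1 ∧ (bd τ i).eval x.length ^ 4 ≤ u.length

/-- The oracle satisfies the condition. -/
def Sat (c : ℕ × Lang × Set (List Bool)) (A : Lang) : Prop :=
  Agl c.1 c.2.1 A ∧ Legit (lvR τ) (muR τ) c.2.2 A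

/-- Valid conditions. -/
def Val (c : ℕ × Lang × Set (List Bool)) : Prop :=
  (∃ K, Adm τ K c.2.2) ∧ Legit (lvR τ) (muR τ) c.2.2 c.2.1 ∧
    ∀ A, Sat τ c A → ∀ u ∈ c.2.2, nuR τ u A = !muR τ u A

/-- The requirement can be forced below every condition. -/
def Frc (P : Lang → Prop) : Prop :=
  ∀ c, Val τ c → ∃ c', Val τ c' ∧ c.1 < c'.1 ∧ Agl c.1 c.2.1 c'.2.1 ∧ c.2.2 ⊆ c'.2.2 ∧
    ∀ A, Sat τ c' A → P A

variable {τ}

theorem Adm.small {K : ℕ} {Act : Set (List Bool)} (h : Adm τ K Act) (u : List Bool)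
    (hu : u ∈ Act) : Small (lvR τ) (btR τ) (muR τ) (nuR τ) u ∧ lvR τ u ≤ K := by
  obtain ⟨i, x, p, k, rfl, -, h1, h2, h3, h4⟩ := h u hu
  have e : (bd τ i).eval x.length = (exists_bd (τ i).1).choose.eval x.length +
      (exists_bd (τ i).2).choose.eval x.length + x.length + 1 := by simp [bd]
  obtain ⟨a1, a2⟩ := (exists_bd (τ i).1).choose_spec x _ ((bd τ i).eval x.length) le_rfl (by omega)
  obtain ⟨b1, b2⟩ := (exists_bd (τ i).2).choose_spec x _ ((bd τ i).eval x.length) le_rfl (by omega)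
  simp only [Small, lvR, btR, muR, nuR, rw3_inj.extend_apply, h2, Nat.add_sub_cancel]
  exact ⟨⟨by omega, h4, h2 ▸ a1, h3 ▸ b1, fun A A' h => ⟨a2 A A' h, b2 A A' h⟩⟩, h1⟩

theorem Adm.count (K : ℕ) : ∀ᶠ M in Filter.atTop, ∀ Act, Adm τ K Act →
    ∃ I : Finset (List Bool), I.card ≤ 2 ^ (M / 9) ∧ ∀ u ∈ Act, u.length < M * M → u ∈ I := by
  filter_upwards [Filter.eventually_ge_atTop 400, poly_le_two_pow
    (((K : Polynomial ℕ) + 1) * (Polynomial.X * Polynomial.X)) 18 (by norm_num)] with M e1 e2 Act h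
  refine ⟨(lists M.sqrt ×ˢ range (K + 1) ×ˢ range (M * M)).image fun q =>
    rw3 (q.2.1, q.1, List.replicate q.2.2 false), card_image_le.trans ?_, fun u hu hM => ?_⟩
  · have h1 : 20 ≤ M.sqrt := Nat.le_sqrt.2 e1
    have h2 := Nat.sqrt_le M
    have h3 : M.sqrt + 1 ≤ M / 18 := (Nat.le_div_iff_mul_le (by norm_num)).2 (by nlinarith)
    rw [card_product, card_product, card_range, card_range]
    refine (Nat.mul_le_mul ((card_lists _).le.trans (Nat.pow_le_pow_right two_pos h3))
      (by simpa using e2)).trans ?_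
    rw [← pow_add]
    exact Nat.pow_le_pow_right two_pos (by omega)
  · obtain ⟨i, x, p, k, rfl, h1, -, -, -, h4⟩ := h u hu
    have h5 : x.length ≤ (bd τ i).eval x.length := by simp [bd]; omega
    have h6 : x.length * x.length * (x.length * x.length) < M * M :=
      lt_of_le_of_lt ((le_of_eq (by ring)).trans ((Nat.pow_le_pow_left h5 4).trans h4)) hM
    refine mem_image.2 ⟨(x, i, p), ?_, rfl⟩
    simp only [rw3, List.length_cons, length_enc_pair, PolyT.Poly.enc_bools_length,
      List.length_replicate] at hM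
    simp only [mem_product, mem_lists, mem_range]
    exact ⟨Nat.le_sqrt.2 (Nat.mul_self_lt_mul_self_iff.1 h6).le, by omega, by omega⟩

theorem Val.ext {c : ℕ × Lang × Set (List Bool)} (h : Val τ c) {A : Lang} (hA : Sat τ c A)
    {T : ℕ} (hT : c.1 ≤ T) : Val τ (T, A, c.2.2) :=
  ⟨h.1, hA.2, fun A' hA' => h.2.2 A'
    ⟨fun s hs => (hA.1 s hs).trans (hA'.1 s (hs.trans_le hT)), hA'.2⟩⟩

theorem gro_poly (m : ℕ) (P : Polynomial ℕ) :
    ∃ Q : Polynomial ℕ, ∀ n, gro^[m] (P.eval n) = Q.eval n := by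
  induction m with
  | zero => exact ⟨P, fun _ => rfl⟩
  | succ m ih =>
    obtain ⟨Q, h⟩ := ih
    exact ⟨10 * Q ^ 3, fun n => by simp [iterate_succ_apply', h, gro]⟩

theorem frc_diag (c : Tw) (hc : 1 ≤ c.2.length) (s : Bool) : Frc τ fun A => ∃ x, ev c.1 c.2 A x ≠
    bif s then par A x (2 ^ x.length) else dec x.length c.2.length fun j => A (ad x j 0) := by
  rintro ⟨m, A₀, Act⟩ hV
  obtain ⟨⟨K, hK⟩, h1, h2⟩ := id hV
  obtain ⟨B, hB⟩ := exists_bd c
  obtain ⟨e, he⟩ := poly_le_pow (B + Polynomial.X)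
  set d := c.2.length
  let P : Polynomial ℕ := ((K : Polynomial ℕ) + 2) * Polynomial.X ^ 2 ^ (e + 1) +
    ((d : Polynomial ℕ) + 2) * Polynomial.X + 1
  let j := (e + 1) * ((K + 1) * (K + 2))
  obtain ⟨Q, hQ⟩ := gro_poly (d + 1 + j) P
  obtain ⟨M₀, hM₀⟩ := Filter.eventually_atTop.1 (Adm.count (τ := τ) K)
  obtain ⟨n, e1, e2, e3⟩ := ((poly_le_two_pow Q (9 * d) (by omega)).and
    ((poly_le_two_pow ((128 * ((e + 1) * ((K + 1) * K) + d) : ℕ) : Polynomial ℕ) (9 * d)
      (by omega)).and (Filter.eventually_ge_atTop (m + M₀ + 45 * d)))).exists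
  simp only [Polynomial.eval_natCast, Nat.cast_id] at e2
  set a := n / (9 * d) with ha
  have a1 : 5 ≤ a := (Nat.le_div_iff_mul_le (by omega)).2 (by omega)
  have a2 : a * (9 * d) ≤ n := Nat.div_mul_le_self _ _
  have a3 : a ≤ n / 9 := (Nat.le_div_iff_mul_le (by omega)).2 (by nlinarith)
  have hP : P.eval n = (K + 2) * n ^ 2 ^ (e + 1) + (d + 2) * n + 1 := by simp [P]
  have hT : B.eval n + n < n ^ 2 ^ (e + 1) := by
    have b1 := he n
    have b2 : (n + 2) ^ e ≤ (n ^ 2) ^ e := Nat.pow_le_pow_left (by nlinarith) _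
    have b3 : 2 * e < 2 ^ (e + 1) := by
      have := Nat.lt_two_pow_self (n := e)
      omega
    rw [← pow_mul] at b2
    simp only [Polynomial.eval_add, Polynomial.eval_X] at b1
    exact (b1.trans b2).trans_lt (Nat.pow_lt_pow_right (by omega) b3)
  have hT' : n ^ 2 ^ (e + 1) ≤ (K + 2) * n ^ 2 ^ (e + 1) := Nat.le_mul_of_pos_left _ (by omega)
  set x := List.replicate n false with hx
  have hxn : x.length = n := by simp [hx]
  let G : Lang → Bool := fun r => bif s then xr n r [] else dec n d r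
  have hG : ∀ A : Lang, (bif s then par A x (2 ^ x.length) else
      dec x.length d fun j => A (ad x j 0)) = G fun j => A (ad x j 0) := fun A => by
    rw [par_eq, hxn]
  have hloc : ∀ A A', Agl (n ^ 2 ^ (e + 1)) A A' → ev c.1 c.2 A x = ev c.1 c.2 A' x :=
    fun A A' h => (hB x n (n ^ 2 ^ (e + 1)) hxn.le (by omega)).2 A A' fun v hv =>
      h v ((lev_le v).trans_lt hv)
  obtain ⟨A, b1, b2, b3⟩ : ∃ A, Agl n A₀ A ∧ Legit (lvR τ) (muR τ) Act A ∧
      ev c.1 c.2 A x ≠ G fun j => A (ad x j 0) := by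
    by_contra hcon
    push Not at hcon
    have hW : gro^[d + 1] (gro^[j] (P.eval n)) ≤ 2 ^ a := by rw [← iterate_add_apply, hQ]; exact e1
    have h3 : P.eval n ≤ gro^[j] (P.eval n) := gro_mono _ (Nat.zero_le _)
    have h4 := apx_stage (R := e + 1) (w := P.eval n) (d := d) (x := x) (G := G)
      (fun u hu => (hK.small u hu).1) (fun u hu => (hK.small u hu).2)
      (fun A c1 c2 => h2 A ⟨fun s hs => c1 s (lt_of_lt_of_le hs (by dsimp only; omega)), c2⟩)
      (fun h => by
        obtain ⟨i, y, p, k, e, -⟩ := hK x h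
        have : true ∈ x := by rw [e]; exact List.mem_cons_self
        simp [hx] at this) (by omega) hc (by nlinarith) h1
      (fun M hM => hM₀ M (by omega) Act hK) (by omega)
      ((gro_mono (gro^[j] (P.eval n)) (Nat.zero_le _)).trans
        (hW.trans (Nat.pow_le_pow_right two_pos a3)))
      (hB x n _ hxn.le (by omega)).1 (by omega) hloc hcon
    have h5 : ∀ r, ovr {x} A₀ r ∈ {A | Agl n A₀ A} := agl_ovr (by simp [hxn]) A₀
    have h6 : (1 : ℝ) ≤ 2 * ((e + 1 : ℕ) * ((K + 1) * K * (32 / (2 ^ (n / 9) : ℕ))) +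
        d * (32 / (2 ^ a : ℕ))) := by
      rw [← funext hG] at h4
      cases s
      · exact test_dec hc a1 hW (by rw [hxn]; nlinarith) (by omega) h5 h4
      · exact test_par hc a1 hW (by rw [hxn]; nlinarith) (by rw [hxn]; nlinarith) h5 h4
    have h7 : (32 / (2 ^ (n / 9) : ℕ) : ℝ) ≤ 32 / (2 ^ a : ℕ) :=
      div_le_div_of_nonneg_left (by norm_num) (by positivity) (by
        exact_mod_cast Nat.pow_le_pow_right two_pos a3)
    have h8 : ((128 * ((e + 1) * ((K + 1) * K) + d) : ℕ) : ℝ) * (32 / (2 ^ a : ℕ)) ≤ 32 := by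
      rw [mul_div_assoc', div_le_iff₀ (by positivity), mul_comm]
      exact mul_le_mul_of_nonneg_left (by exact_mod_cast e2) (by norm_num)
    have h9 := mul_le_mul_of_nonneg_left h7
      (show (0 : ℝ) ≤ (e + 1) * ((K + 1) * K) by positivity)
    push_cast at h6 h8 h9
    nlinarith
  refine ⟨(n ^ 2 ^ (e + 1), A, Act), hV.ext ⟨fun s hs => b1 s (lt_of_lt_of_le hs (by
    dsimp only; omega)), b2⟩ (by dsimp only; omega), by dsimp only; omega,
    fun s hs => b1 s (lt_of_lt_of_le hs (by dsimp only; omega)), subset_rfl,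
    fun A' hA' => ⟨x, ?_⟩⟩
  rwa [hG, ← hloc A A' hA'.1, ← funext fun j => hA'.1 (ad x j 0) (by simp only [lev_ad]; omega)]

theorem frc_code (i : ℕ) : Frc τ fun A => ∀ k, (τ i).1.2.length = k + 1 →
    (τ i).2.2.length = k + 1 →
    (∀ x, ev (τ i).2.1 (τ i).2.2 A x = !ev (τ i).1.1 (τ i).1.2 A x) →
    ∃ U, PolyT.Poly U ∧ ∀ x, dec (U x).length k (fun j => A (ad (U x) j 0)) =
      ev (τ i).1.1 (τ i).1.2 A x := by
  rintro ⟨m, A₀, Act⟩ hV
  obtain ⟨⟨K, hK⟩, h1, h2⟩ := id hV
  by_cases h3 : ∃ k, (τ i).1.2.length = k + 1 ∧ (τ i).2.2.length = k + 1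
  swap
  · exact ⟨(m + 1, A₀, Act), hV.ext ⟨fun _ _ => rfl, h1⟩ (Nat.le_succ m), Nat.lt_succ_self m,
      fun _ _ => rfl, subset_rfl, fun A _ k a b => absurd ⟨k, a, b⟩ h3⟩
  obtain ⟨k, k1, k2⟩ := h3
  by_cases h4 : ∃ A, Sat τ (m, A₀, Act) A ∧
      ∃ x, ev (τ i).2.1 (τ i).2.2 A x ≠ !ev (τ i).1.1 (τ i).1.2 A x
  · obtain ⟨A, a1, x, a2⟩ := h4
    obtain ⟨B, hB⟩ := exists_bd (τ i).1
    obtain ⟨B', hB'⟩ := exists_bd (τ i).2
    refine ⟨(m + B.eval x.length + B'.eval x.length + 1, A, Act), hV.ext a1 (by dsimp only; omega),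
      by dsimp only; omega, a1.1, subset_rfl, fun A' hA' _ _ _ h => absurd ?_ a2⟩
    have e : ∀ v : List Bool, v.length < m + B.eval x.length + B'.eval x.length + 1 →
        A v = A' v := fun v hv => hA'.1 v ((lev_le v).trans_lt hv)
    rw [(hB x _ _ le_rfl (by omega)).2 A A' e, (hB' x _ _ le_rfl (by omega)).2 A A' e, h]
  push Not at h4
  obtain ⟨F, hF, hF'⟩ := exists_list_eval (l := fun x : List Bool => x) (by fun_prop)
    (bd τ i ^ 4 + (m : Polynomial ℕ))
  let U : List Bool → List Bool := fun x => rw3 (i, x, (F x).map fun _ => false)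
  have hU : ∀ x, (bd τ i).eval x.length ^ 4 + m < (U x).length := fun x => by
    have := hF' x
    simp only [Polynomial.eval_add, Polynomial.eval_pow, Polynomial.eval_natCast,
      Nat.cast_id] at this
    simp only [U, rw3, List.length_cons, length_enc_pair, PolyT.Poly.enc_bools_length,
      List.length_map]
    omega
  have hK' : Adm τ (K + i + k) (Act ∪ Set.range U) := by
    rintro u (hu | ⟨x, rfl⟩)
    · obtain ⟨i', x, p, k', a1, a2, a3, a4⟩ := hK u hu
      exact ⟨i', x, p, k', a1, by omega, by omega, a4⟩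
    · exact ⟨i, x, (F x).length, k, by simp [U], by omega, by omega, k1, k2,
        by have := hU x; omega⟩
  obtain ⟨A, a1, a2⟩ := complete (fun u hu => (hK'.small u hu).1) A₀ (m + 1) (by
    rintro u ⟨hu | ⟨x, rfl⟩, h⟩
    · exact h1 u hu
    · have := hU x
      omega)
  have h5 : ∀ A', Sat τ (m + 1, A, Act ∪ Set.range U) A' → Sat τ (m, A₀, Act) A' := fun A' h =>
    ⟨fun s hs => (a1 s (Nat.lt_succ_of_lt hs)).trans (h.1 s (Nat.lt_succ_of_lt hs)),
      fun u hu => h.2 u (Or.inl hu)⟩
  refine ⟨(m + 1, A, Act ∪ Set.range U), ⟨⟨_, hK'⟩, a2, ?_⟩, Nat.lt_succ_self m,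
    fun s hs => a1 s (Nat.lt_succ_of_lt hs), Set.subset_union_left, fun A' hA' k' e _ _ =>
      ⟨U, by unfold U rw3; fun_prop, fun x => ?_⟩⟩
  · rintro A' hA' u (hu | ⟨x, rfl⟩)
    · exact h2 A' (h5 A' hA') u hu
    · simp only [U, muR, nuR, rw3_inj.extend_apply]
      exact h4 A' (h5 A' hA') x
  · have := hA'.2 (U x) (Or.inr ⟨x, rfl⟩)
    simp only [U, muR, lvR, rw3_inj.extend_apply, e, Nat.add_sub_cancel] at this
    exact this

theorem exists_lim' (P : ℕ → Lang → Prop) (hP : ∀ i, Frc τ (P i)) : ∃ A, ∀ i, P i A := by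
  choose F h0 h1 h2 h3 h4 using hP
  let a : ℕ → {c // Val τ c} := fun i => Nat.rec
    ⟨(0, fun _ => false, ∅), ⟨0, fun _ h => h.elim⟩, fun _ h => h.elim, fun _ _ _ h => h.elim⟩
    (fun i c => ⟨F i c.1 c.2, h0 i c.1 c.2⟩) i
  have hmono : StrictMono fun i => (a i).1.1 := strictMono_nat_of_lt_succ fun i => h1 i _ (a i).2
  have hsub : Monotone fun i => (a i).1.2.2 := monotone_nat_of_le_succ fun i => h3 i _ (a i).2
  have hag : ∀ i j, i ≤ j → Agl (a i).1.1 (a i).1.2.1 (a j).1.2.1 := by
    intro i j hij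
    induction j, hij using Nat.le_induction with
    | base => exact fun _ _ => rfl
    | succ j hij ih =>
      exact fun s hs => (ih s hs).trans (h2 j _ (a j).2 s (hs.trans_le (hmono.monotone hij)))
  have hlim : ∀ i, Agl (a i).1.1 (a i).1.2.1 fun s => (a (lev s + 1)).1.2.1 s := by
    intro i s hs
    rcases le_total i (lev s + 1) with h | h
    · exact hag _ _ h s hs
    · exact (hag _ _ h s (hmono.le_apply (x := lev s + 1))).symm
  refine ⟨fun s => (a (lev s + 1)).1.2.1 s, fun i => h4 i _ (a i).2 _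
    ⟨hlim (i + 1), fun u hu => ?_⟩⟩
  obtain ⟨⟨K, hK⟩, b1, -⟩ := (a (i + 1 + u.length)).2
  have b2 : u ∈ (a (i + 1 + u.length)).1.2.2 := hsub (Nat.le_add_right _ _) hu
  exact (hK.small u b2).1.legit
    (lt_of_lt_of_le (by omega) (hmono.le_apply (x := i + 1 + u.length))) (hlim _) (b1 u b2)

end

theorem exists_oracle : ∃ A : Lang,
    (∀ k, ∀ L ∈ RelSigma A (k + 1), (fun x => !L x) ∈ RelSigma A (k + 1) →
      ∃ B ∈ RelSigma A k, L ∈ RelP (join A B)) ∧
    (∀ k, ∃ L, (∃ B ∈ RelSigma A (k + 1), L ∈ RelP (join A B)) ∧ L ∉ RelSigma A (k + 1)) ∧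
    ∃ L ∈ RelPSPACE A, ∀ k, L ∉ RelSigma A (k + 1) := by
  obtain ⟨τ, hτ⟩ := exists_surjective_nat (Tw × Tw)
  obtain ⟨π, hπ⟩ := exists_surjective_nat
    (ℕ ⊕ Bool × (OM × Polynomial ℕ) × (OM × Polynomial ℕ × Polynomial ℕ) ×
      List (OM × Polynomial ℕ × Polynomial ℕ))
  let g : ℕ ⊕ Bool × (OM × Polynomial ℕ) × (OM × Polynomial ℕ × Polynomial ℕ) ×
      List (OM × Polynomial ℕ × Polynomial ℕ) → {P // Frc τ P} :=
    Sum.elim (fun i => ⟨_, frc_code i⟩)
      fun y => ⟨_, frc_diag (y.2.1, y.2.2.1 :: y.2.2.2) (by simp) y.1⟩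
  obtain ⟨A, hA⟩ := exists_lim' (fun n => (g (π n)).1) fun n => (g (π n)).2
  have key : ∀ (k : ℕ) (L : Lang) (s : Bool), L ∈ RelSigma A (k + 1) → ∃ x, L x ≠
      bif s then par A x (2 ^ x.length) else dec x.length (k + 1) fun j => A (ad x j 0) := by
    intro k L s hL
    obtain ⟨b, _ | ⟨m, l⟩, e, rfl⟩ := exists_ev' hL
    · simp at e
    obtain ⟨n, hn⟩ := hπ (Sum.inr (s, b, m, l))
    have := hA n
    rw [hn] at this
    exact e ▸ this
  refine ⟨A, fun k L h h' => ?_, fun k => ⟨_, dec_mem (U := fun x => x) (by fun_prop) A (k + 1),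
    fun h => ?_⟩, _, par_mem A, fun k h => ?_⟩
  · obtain ⟨b, l, e, rfl⟩ := exists_ev' h
    obtain ⟨b', l', e', h''⟩ := exists_ev' h'
    obtain ⟨i, hi⟩ := hτ ((b, l), (b', l'))
    obtain ⟨n, hn⟩ := hπ (Sum.inl i)
    have := hA n
    rw [hn] at this
    simp only [g, Sum.elim_inl, hi] at this
    obtain ⟨U, u1, u2⟩ := this k e e' fun x => (congrFun h'' x).symm
    exact funext u2 ▸ dec_mem u1 A k
  · exact let ⟨x, hx⟩ := key k _ false h; hx rfl
  · exact let ⟨x, hx⟩ := key k _ true h; hx rfl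

end Pool.Agent.MP_a2d820_lc.h70

end MrgPart2

-- marker of a merged file
example : 731051 + 887842 = 731051 + 887842 := rfl
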